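import Mathlib

/-!
# Composition with a polynomial over a finite field, Kummer polynomials and norms
-/

open Polynomial IntermediateField Module

namespace Pool.Agent.H539.FF

universe u v w

theorem irr_iff_natDegree_minpoly {K : Type u} {Ω : Type v} [Field K] [Field Ω] [Algebra K Ω]
    (H : K[X]) (hH : H ≠ 0) (α : Ω) (hα : aeval α H = 0) :
    Irreducible H ↔ (minpoly K α).natDegree = H.natDegree := by
  have hint : IsIntegral K α := by
    refine (isAlgebraic_iff_isIntegral).1 ⟨H, hH, hα⟩
  have hirr := minpoly.irreducible hint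
  have hdvd : minpoly K α ∣ H := minpoly.dvd K α hα
  constructor
  · intro h
    have := hirr.associated_of_dvd h hdvd
    exact natDegree_eq_of_degree_eq (degree_eq_degree_of_associated this)
  · intro h
    exact (associated_of_dvd_of_natDegree_le hdvd hH h.ge).irreducible hirr

theorem finrank_adjoin_root {K : Type u} {L : Type v} {Ω : Type w} [Field K] [Field L] [Field Ω]
    [Algebra K L] [Algebra L Ω] [Algebra K Ω] [IsScalarTower K L Ω] (ζ : L) (hζ : K⟮ζ⟯ = ⊤)
    (g : K[X]) (α : Ω) (h : aeval α g = algebraMap L Ω ζ) :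
    finrank K K⟮α⟯ = finrank K L * finrank L L⟮α⟯ := by
  have hmem : algebraMap L Ω ζ ∈ K⟮α⟯ := by
    rw [← h]
    have : α ∈ K⟮α⟯ := mem_adjoin_simple_self K α
    have h2 := (K⟮α⟯).aeval_coe (R := K) ⟨α, this⟩ g
    simp only at h2
    rw [h2]
    exact SetLike.coe_mem _
  have hall : ∀ x : L, algebraMap L Ω x ∈ K⟮α⟯ := by
    intro x
    have hx : x ∈ K⟮ζ⟯ := by rw [hζ]; trivial
    have h3 : (K⟮ζ⟯).map (IsScalarTower.toAlgHom K L Ω) ≤ K⟮α⟯ := by
      rw [adjoin_map]
      rw [adjoin_le_iff]
      rintro _ ⟨y, hy, rfl⟩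
      rw [Set.mem_singleton_iff] at hy
      subst hy
      exact hmem
    apply h3
    exact ⟨x, hx, rfl⟩
  have heq : K⟮α⟯ = (L⟮α⟯).restrictScalars K := by
    apply le_antisymm
    · rw [adjoin_le_iff]
      intro y hy
      rw [Set.mem_singleton_iff] at hy
      subst hy
      exact mem_adjoin_simple_self L y
    · intro y hy
      have h4 : L⟮α⟯ ≤ (K⟮α⟯.toSubfield).toIntermediateField hall := by
        rw [adjoin_le_iff]
        intro z hz
        rw [Set.mem_singleton_iff] at hz
        subst hz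
        exact mem_adjoin_simple_self K z
      exact h4 hy
  rw [heq]
  have := Module.finrank_mul_finrank K L L⟮α⟯
  rw [this]
  rfl

theorem comp_irreducible_iff {K : Type u} {L : Type v} [Field K] [Field L] [Algebra K L]
    [FiniteDimensional K L] {P g : K[X]} (hP : Irreducible P) (hg : 0 < g.natDegree) (ζ : L)
    (hζ : aeval ζ P = 0) (hT : K⟮ζ⟯ = ⊤) :
    Irreducible (P.comp g) ↔ Irreducible (g.map (algebraMap K L) - C ζ) := by
  have hint : IsIntegral K ζ := Algebra.IsIntegral.isIntegral ζ
  have hdeg : P.natDegree = finrank K L := by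
    have h1 := (irr_iff_natDegree_minpoly P hP.ne_zero ζ hζ).1 hP
    have h2 := adjoin.finrank hint
    rw [hT, finrank_top'] at h2
    rw [← h1, ← h2]
  set G := g.map (algebraMap K L) - C ζ with hG
  have hGdeg : G.natDegree = g.natDegree := by
    rw [hG, natDegree_sub_C, natDegree_map]
  have hG0 : G ≠ 0 := by
    intro h0
    rw [h0, natDegree_zero] at hGdeg
    omega
  have hGd : G.degree ≠ 0 := by
    intro h0
    have := natDegree_eq_of_degree_eq_some (n := 0) (by simpa using h0)
    omega
  obtain ⟨α, hα⟩ := IsAlgClosed.exists_aeval_eq_zero (AlgebraicClosure L) G hGd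
  have hα' : aeval α g = algebraMap L (AlgebraicClosure L) ζ := by
    rw [hG, map_sub, aeval_C, aeval_map_algebraMap, sub_eq_zero] at hα
    exact hα
  have hcomp0 : P.comp g ≠ 0 := by
    intro h0
    have h1 := natDegree_comp (p := P) (q := g)
    rw [h0, natDegree_zero] at h1
    have h2 : 0 < P.natDegree := hP.natDegree_pos
    have := Nat.mul_pos h2 hg
    omega
  have hcomp : aeval α (P.comp g) = 0 := by
    rw [aeval_comp, hα', aeval_algebraMap_apply, hζ, map_zero]
  rw [irr_iff_natDegree_minpoly _ hcomp0 α hcomp, irr_iff_natDegree_minpoly _ hG0 α hα,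
    natDegree_comp, hGdeg, hdeg]
  have hiK : IsIntegral K α := (isAlgebraic_iff_isIntegral).1 ⟨_, hcomp0, hcomp⟩
  have hiL : IsIntegral L α := (isAlgebraic_iff_isIntegral).1 ⟨_, hG0, hα⟩
  rw [← adjoin.finrank hiK, ← adjoin.finrank hiL, finrank_adjoin_root ζ hT g α hα']
  have hpos : 0 < finrank K L := finrank_pos
  constructor
  · intro h
    exact Nat.eq_of_mul_eq_mul_left hpos h
  · intro h
    rw [h]


/-- Irreducibility of `X ^ n - a` over a field in which `-1` is a square. -/
theorem kummer_irreducible {n : ℕ} (hn : n ≠ 0) {K : Type u} [Field K] (hi : IsSquare (-1 : K))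
    {a : K} (ha : ∀ p : ℕ, p.Prime → p ∣ n → ∀ b : K, b ^ p ≠ a) :
    Irreducible (X ^ n - C a) := by
  induction n using induction_on_primes generalizing K a with
  | zero => exact absurd rfl hn
  | one => simpa using irreducible_X_sub_C a
  | prime_mul p n hp IH =>
    rw [mul_comm]
    have hn0 : n ≠ 0 := by rintro rfl; simp at hn
    apply X_pow_mul_sub_C_irreducible
      (X_pow_sub_C_irreducible_of_prime hp (ha p hp (dvd_mul_right _ _)))
    intro E _ _ x hx
    have hint : IsIntegral K x := not_not.mp fun h ↦ by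
      simpa only [degree_zero, degree_X_pow_sub_C hp.pos,
        WithBot.natCast_ne_bot] using congr_arg degree (hx.symm.trans (dif_neg h))
    have hiE : IsSquare (-1 : K⟮x⟯) := by
      obtain ⟨i, hi⟩ := hi
      exact ⟨algebraMap K K⟮x⟯ i, by rw [← map_mul, ← hi, map_neg, map_one]⟩
    apply IH hn0 hiE
    intro q hq hqn b hb
    have hN : (Algebra.norm K b) ^ q = (-1) ^ p * (-a) := by
      rw [← map_pow, hb, ← adjoin.powerBasis_gen hint,
        Algebra.PowerBasis.norm_gen_eq_coeff_zero_minpoly]
      simp [minpoly_gen, hx, hp.ne_zero.symm]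
    rcases hp.eq_two_or_odd' with rfl | hodd
    · rw [show ((-1 : K)) ^ 2 * (-a) = -a by ring] at hN
      rcases hq.eq_two_or_odd' with rfl | hqo
      · obtain ⟨i, hi⟩ := hi
        apply ha 2 hq (dvd_mul_of_dvd_right hqn 2) (i * Algebra.norm K b)
        rw [mul_pow, hN, sq, ← hi]
        ring
      · apply ha q hq (dvd_mul_of_dvd_right hqn 2) (-Algebra.norm K b)
        rw [hqo.neg_pow, hN, neg_neg]
    · rw [hodd.neg_one_pow] at hN
      apply ha q hq (dvd_mul_of_dvd_right hqn p) (Algebra.norm K b)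
      rw [hN]
      ring

theorem kummer_irreducible_iff {n : ℕ} (hn : n ≠ 0) {K : Type u} [Field K]
    (hi : IsSquare (-1 : K)) {a : K} :
    Irreducible (X ^ n - C a) ↔ ∀ p : ℕ, p.Prime → p ∣ n → ∀ b : K, b ^ p ≠ a :=
  ⟨fun e _ hp hpn ↦ pow_ne_of_irreducible_X_pow_sub_C e hpn hp.ne_one,
    fun h => kummer_irreducible hn hi h⟩

/-- In a cyclic group of order `A * B` the elements killed by `A` are `B`-th powers. -/
theorem exists_pow_of_pow_eq_one {G : Type u} [Group G] [Finite G] [IsCyclic G] {A B : ℕ}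
    (hAB : Nat.card G = A * B) {b : G} (hb : b ^ A = 1) : ∃ v : G, v ^ B = b := by
  obtain ⟨g, hg⟩ := IsCyclic.exists_zpow_surjective (G := G)
  have hpos : 0 < A * B := by rw [← hAB]; exact Nat.card_pos
  have hord : orderOf g = A * B := by
    rw [← hAB]
    exact orderOf_eq_card_of_forall_mem_zpowers (fun x => by
      obtain ⟨k, hk⟩ := hg x
      exact ⟨k, hk⟩)
  obtain ⟨k, hk⟩ := hg b
  simp only at hk
  rw [← hk, ← zpow_natCast, ← zpow_mul, ← orderOf_dvd_iff_zpow_eq_one, hord] at hb
  have hA : (A : ℤ) ≠ 0 := by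
    intro h
    have : A = 0 := by exact_mod_cast h
    subst this
    simp at hpos
  have hdvd : (B : ℤ) ∣ k := by
    obtain ⟨c, hc⟩ := hb
    refine ⟨c, ?_⟩
    have h1 : k * A = (A : ℤ) * (B * c) := by rw [hc]; push_cast; ring
    have h2 : (A : ℤ) * k = A * (B * c) := by rw [← h1]; ring
    exact mul_left_cancel₀ hA h2
  obtain ⟨c, hc⟩ := hdvd
  refine ⟨g ^ c, ?_⟩
  rw [← zpow_natCast, ← zpow_mul, ← hk, hc]
  congr 1
  ring

/-- In an extension of finite fields `L / F` with `l ∣ |F| - 1` an element is an `l`-th power in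
`L` if and only if its norm is an `l`-th power in `F`. -/
theorem exists_pow_iff_norm {F : Type u} {L : Type v} [Field F] [Field L] [Algebra F L] [Finite L]
    {l : ℕ} (hl0 : l ≠ 0) (hl : l ∣ Nat.card F - 1) (a : L) :
    (∃ y : L, y ^ l = a) ↔ ∃ z : F, z ^ l = Algebra.norm F a := by
  have hF : Finite F := Finite.of_injective _ (algebraMap F L).injective
  constructor
  · rintro ⟨y, rfl⟩
    exact ⟨Algebra.norm F y, by rw [map_pow]⟩
  · rintro ⟨z, hz⟩
    by_cases ha : a = 0
    · exact ⟨0, by rw [ha, zero_pow hl0]⟩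
    obtain ⟨u, hu⟩ := FiniteField.norm_surjective F L z
    have hna : Algebra.norm F a ≠ 0 := Algebra.norm_ne_zero_iff.2 ha
    have hz0 : z ≠ 0 := by
      rintro rfl
      rw [zero_pow hl0] at hz
      exact hna hz.symm
    have hu0 : u ≠ 0 := by
      rintro rfl
      rw [Algebra.norm_zero] at hu
      exact hz0 hu.symm
    -- `b = a / u ^ l` has norm one
    have hb1 : Algebra.norm F (a / u ^ l) = 1 := by
      have h1 : Algebra.norm F (a / u ^ l) * Algebra.norm F (u ^ l) = Algebra.norm F a := by
        rw [← map_mul, div_mul_cancel₀ _ (pow_ne_zero _ hu0)]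
      rw [map_pow, hu, hz] at h1
      exact mul_right_cancel₀ hna (by rw [h1, one_mul])
    have hb0 : a / u ^ l ≠ 0 := div_ne_zero ha (pow_ne_zero _ hu0)
    have hpow : (a / u ^ l) ^ ((Nat.card L - 1) / (Nat.card F - 1)) = 1 := by
      rw [← FiniteField.algebraMap_norm_eq_pow (K := F) (K' := L), hb1, map_one]
    have hdvd : Nat.card F - 1 ∣ Nat.card L - 1 := by
      have h1 : Nat.card L = Nat.card F ^ Module.finrank F L := by
        have := Fintype.ofFinite L
        have := Fintype.ofFinite F
        rw [Nat.card_eq_fintype_card, Nat.card_eq_fintype_card]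
        exact Module.card_eq_pow_finrank
      rw [h1]
      simpa using Nat.sub_dvd_pow_sub_pow (Nat.card F) 1 (Module.finrank F L)
    have hcard : Nat.card Lˣ = ((Nat.card L - 1) / (Nat.card F - 1)) * (Nat.card F - 1) := by
      rw [Nat.card_units, Nat.div_mul_cancel hdvd]
    obtain ⟨v, hv⟩ := exists_pow_of_pow_eq_one (G := Lˣ) hcard (b := Units.mk0 _ hb0) (by
      ext
      simpa using hpow)
    obtain ⟨k, hk⟩ := hl
    refine ⟨u * (v : L) ^ k, ?_⟩
    have hv' : (v : L) ^ (Nat.card F - 1) = a / u ^ l := by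
      have := congrArg Units.val hv
      simpa using this
    rw [mul_pow, ← pow_mul, mul_comm k l, ← hk, hv']
    field_simp

end Pool.Agent.H539.FF
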