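import Pool.Agent.H539.FF1

/-!
# Repunits over a finite field: irreducibility of cyclotomic polynomials, the norm of `ζ - w`
-/

open Polynomial IntermediateField Module

namespace Pool.Agent.H539.FF

universe u v w

theorem norm_sub {K : Type u} {L : Type v} [Field K] [Field L] [Algebra K L]
    [FiniteDimensional K L] (ζ : L) (hT : K⟮ζ⟯ = ⊤) (w : K) :
    Algebra.norm K (ζ - algebraMap K L w) =
      (-1) ^ (minpoly K ζ).natDegree * (minpoly K ζ).eval w := by
  set x := ζ - algebraMap K L w with hx
  have hxT : K⟮x⟯ = ⊤ := by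
    rw [eq_top_iff, ← hT, adjoin_le_iff]
    intro y hy
    rw [Set.mem_singleton_iff] at hy
    subst hy
    have h1 : x ∈ K⟮x⟯ := mem_adjoin_simple_self K x
    have h2 : algebraMap K L w ∈ K⟮x⟯ := IntermediateField.algebraMap_mem _ w
    have h3 := add_mem h1 h2
    rw [hx, sub_add_cancel] at h3
    exact h3
  have hint : IsIntegral K x := Algebra.IsIntegral.isIntegral x
  have hmin : minpoly K x = (minpoly K ζ).comp (X + C w) := by
    rw [hx, minpoly.sub_algebraMap]
  have hd : (minpoly K x).natDegree = (minpoly K ζ).natDegree := by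
    rw [hmin, natDegree_comp]
    simp
  rw [Algebra.norm_eq_norm_adjoin, finrank_eq_one_iff_eq_top.2 hxT, pow_one,
    ← adjoin.powerBasis_gen hint, Algebra.PowerBasis.norm_gen_eq_coeff_zero_minpoly,
    adjoin.powerBasis_gen hint, minpoly_gen, adjoin.powerBasis_dim, hd, hmin,
    coeff_zero_eq_eval_zero, eval_comp]
  simp

section Finite

variable {F : Type u} [Field F] [Fintype F]

theorem cyclotomic_irreducible_iff {m : ℕ} (hm : m.Prime) (h3 : 3 ≤ m) :
    Irreducible (cyclotomic m F) ↔ orderOf ((Fintype.card F : ℕ) : ZMod m) = m - 1 := by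
  have : Fact m.Prime := ⟨hm⟩
  obtain ⟨p, hp⟩ := CharP.exists F
  obtain ⟨f, hpp, hcard⟩ := FiniteField.card F p
  have : Fact p.Prime := ⟨hpp⟩
  by_cases hpm : p = m
  · subst hpm
    have h1 : ((Fintype.card F : ℕ) : ZMod p) = 0 := by
      rw [hcard, Nat.cast_pow, ZMod.natCast_self, zero_pow f.ne_zero]
    rw [h1, orderOf_zero]
    constructor
    · intro hirr
      exfalso
      have h2 : cyclotomic p F = (X - 1) ^ (p - 1) := by
        have h4 : cyclotomic p F * (X - 1) = (X - 1) ^ (p - 1) * (X - 1) := by
          rw [cyclotomic_prime, geom_sum_mul, ← pow_succ, Nat.sub_add_cancel (by omega),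
            sub_pow_char, one_pow]
        exact mul_right_cancel₀ (X_sub_C_ne_zero (1 : F)) (by simpa using h4)
      rw [h2] at hirr
      exact (not_irreducible_pow (by omega : p - 1 ≠ 1)) hirr
    · intro h
      omega
  · have hcop : p.Coprime m := (Nat.coprime_primes hpp hm).2 hpm
    have hord : orderOf ((Fintype.card F : ℕ) : ZMod m) =
        orderOf (ZMod.unitOfCoprime _ (hcop.pow_left (f : ℕ))) := by
      rw [← orderOf_units, ZMod.coe_unitOfCoprime, hcard]
    constructor
    · intro hirr
      have h1 := natDegree_of_dvd_cyclotomic_of_irreducible hcard hcop dvd_rfl hirr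
      rw [hord, ← h1, natDegree_cyclotomic, Nat.totient_prime hm]
    · intro h
      apply irreducible_of_dvd_cyclotomic_of_natDegree hcard hcop dvd_rfl
      rw [natDegree_cyclotomic, Nat.totient_prime hm, ← hord, h]

/-- The repunit of length `m` in the base `f`. -/
noncomputable def rep (f : F[X]) (m : ℕ) : F[X] := ∑ i ∈ Finset.range m, f ^ i

omit [Fintype F] in
theorem rep_eq_comp {m : ℕ} (hm : m.Prime) (f : F[X]) : rep f m = (cyclotomic m F).comp f := by
  have : Fact m.Prime := ⟨hm⟩
  rw [cyclotomic_prime, rep, ← Polynomial.coe_compRingHom_apply, map_sum]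
  simp

omit [Fintype F] in
theorem natDegree_rep_pos {f : F[X]} (hf : 1 ≤ f.natDegree) {m : ℕ} (hm : 2 ≤ m) :
    0 < (rep f m).natDegree := by
  have h1 : rep f m * (f - 1) = f ^ m - 1 := geom_sum_mul f m
  have h2 : (f ^ m - 1).natDegree = m * f.natDegree := by
    rw [← C_1, natDegree_sub_C, natDegree_pow]
  have h3 : (f - 1).natDegree = f.natDegree := by
    rw [← C_1, natDegree_sub_C]
  have h4 : f ^ m - 1 ≠ 0 := by
    intro h
    rw [h, natDegree_zero] at h2
    have := Nat.mul_pos (show 0 < m by omega) (show 0 < f.natDegree by omega)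
    omega
  have h5 : rep f m ≠ 0 := by
    intro h
    rw [h, zero_mul] at h1
    exact h4 h1.symm
  have h6 : f - 1 ≠ 0 := by
    intro h
    rw [h, mul_zero] at h1
    exact h4 h1.symm
  have h7 := natDegree_mul h5 h6
  rw [h1, h2, h3] at h7
  have : 2 * f.natDegree ≤ m * f.natDegree := Nat.mul_le_mul_right _ hm
  omega

/-- If a repunit of length at least three is irreducible, its length is a prime modulo which the
number of elements of the field is a primitive root. -/
theorem rep_irreducible {f : F[X]} (hf : 1 ≤ f.natDegree) {m : ℕ} (h3 : 3 ≤ m)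
    (hirr : Irreducible (rep f m)) :
    m.Prime ∧ orderOf ((Fintype.card F : ℕ) : ZMod m) = m - 1 := by
  have hm : m.Prime := by
    by_contra hm
    obtain ⟨a, ⟨b, hb⟩, ha2, ha3⟩ := Nat.exists_dvd_of_not_prime2 (by omega) hm
    have hb2 : 2 ≤ b := by
      by_contra hlt
      have : b = 0 ∨ b = 1 := by omega
      rcases this with h | h
      · subst h
        omega
      · subst h
        omega
    have hfac : rep f m = rep f a * rep (f ^ a) b := by
      have hne : f - 1 ≠ 0 := by
        intro h
        have : (f - 1).natDegree = f.natDegree := by rw [← C_1, natDegree_sub_C]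
        rw [h, natDegree_zero] at this
        omega
      apply mul_right_cancel₀ hne
      calc rep f m * (f - 1) = f ^ m - 1 := geom_sum_mul f m
        _ = (f ^ a) ^ b - 1 := by rw [hb, pow_mul]
        _ = rep (f ^ a) b * (f ^ a - 1) := (geom_sum_mul (f ^ a) b).symm
        _ = rep (f ^ a) b * (rep f a * (f - 1)) := by rw [rep, rep, geom_sum_mul f a]
        _ = _ := by ring
    have h1 := natDegree_rep_pos hf ha2
    have h2 : 0 < (rep (f ^ a) b).natDegree := by
      apply natDegree_rep_pos _ hb2
      rw [natDegree_pow]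
      exact Nat.mul_pos (by omega) (by omega)
    rcases hirr.isUnit_or_isUnit hfac with h | h
    · have := natDegree_eq_zero_of_isUnit h
      omega
    · have := natDegree_eq_zero_of_isUnit h
      omega
  refine ⟨hm, ?_⟩
  rw [← cyclotomic_irreducible_iff hm h3]
  rw [rep_eq_comp hm] at hirr
  refine ⟨fun hu => ?_, fun A B hAB => ?_⟩
  · have := natDegree_eq_zero_of_isUnit hu
    rw [natDegree_cyclotomic, Nat.totient_prime hm] at this
    omega
  · rw [hAB, mul_comp] at hirr
    have key : ∀ P : F[X], IsUnit (P.comp f) → IsUnit P := by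
      intro P hP
      have h1 := natDegree_eq_zero_of_isUnit hP
      rw [natDegree_comp] at h1
      have h2 : P.natDegree = 0 := by
        rcases Nat.mul_eq_zero.1 h1 with h | h
        · exact h
        · omega
      rw [eq_C_of_natDegree_eq_zero h2] at hP ⊢
      simpa using hP
    rcases hirr.isUnit_or_isUnit rfl with h | h
    · exact Or.inl (key A h)
    · exact Or.inr (key B h)

end Finite

end Pool.Agent.H539.FF
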