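import Pool.Agent.H539.FF2

/-!
# Repunits over a finite field in the bases `c t ^ n + w`
-/

open Polynomial IntermediateField Module

namespace Pool.Agent.H539.FF

universe u v w

variable {F : Type u} [Field F] [Fintype F]

omit [Fintype F] in
theorem natDegree_base {c : F} (hc : c ≠ 0) (w : F) (n : ℕ) :
    (C c * X ^ n + C w).natDegree = n := by
  rw [natDegree_add_C, natDegree_C_mul_X_pow n c hc]

theorem criterion {c : F} (hc : c ≠ 0) (w : F) {n : ℕ} (hn : 1 ≤ n)
    (hdiv : ∀ l : ℕ, l.Prime → l ∣ n → l ∣ Fintype.card F - 1) {m : ℕ} (h3 : 3 ≤ m) :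
    Irreducible (rep (C c * X ^ n + C w) m) ↔
      m.Prime ∧ orderOf ((Fintype.card F : ℕ) : ZMod m) = m - 1 ∧
        ∀ l : ℕ, l.Prime → l ∣ n → ∀ y : F, y ^ l * c ^ (m - 1) ≠ ∑ i ∈ Finset.range m, w ^ i := by
  have hfdeg := natDegree_base hc w n
  have key : ∀ (hm : m.Prime) (ho : orderOf ((Fintype.card F : ℕ) : ZMod m) = m - 1),
      (Irreducible (rep (C c * X ^ n + C w) m) ↔
        ∀ l : ℕ, l.Prime → l ∣ n → ∀ y : F,
          y ^ l * c ^ (m - 1) ≠ ∑ i ∈ Finset.range m, w ^ i) := by
    intro hm ho
    have : Fact m.Prime := ⟨hm⟩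
    have hirr : Irreducible (cyclotomic m F) := (cyclotomic_irreducible_iff hm h3).2 ho
    have : Fact (Irreducible (cyclotomic m F)) := ⟨hirr⟩
    set L := AdjoinRoot (cyclotomic m F) with hL
    set ζ : L := AdjoinRoot.root (cyclotomic m F) with hζ
    have hP0 : cyclotomic m F ≠ 0 := cyclotomic_ne_zero m F
    have hfd : FiniteDimensional F L := (AdjoinRoot.powerBasis hP0).finite
    have hfin : Finite L := Module.finite_of_finite F
    have hdim : finrank F L = m - 1 := by
      rw [(AdjoinRoot.powerBasis hP0).finrank, AdjoinRoot.powerBasis_dim, natDegree_cyclotomic,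
        Nat.totient_prime hm]
    have hT : F⟮ζ⟯ = ⊤ := by
      rw [eq_top_iff]
      intro x _
      have h1 : x ∈ Algebra.adjoin F ({ζ} : Set L) := by
        rw [hζ, AdjoinRoot.adjoinRoot_eq_top]
        trivial
      exact algebra_adjoin_le_adjoin F _ h1
    have hroot : aeval ζ (cyclotomic m F) = 0 := by
      rw [hζ, AdjoinRoot.aeval_eq, AdjoinRoot.mk_self]
    have hmin : minpoly F ζ = cyclotomic m F := by
      rw [hζ, AdjoinRoot.minpoly_root hP0, (cyclotomic.monic m F).leadingCoeff, inv_one, C_1,
        mul_one]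
    have hev : (cyclotomic m F).eval w = ∑ i ∈ Finset.range m, w ^ i := by
      rw [cyclotomic_prime, eval_geom_sum]
    have heven : Even (m - 1) := hm.even_sub_one (by omega)
    have hc' : algebraMap F L c ≠ 0 := by
      rw [Ne, map_eq_zero]
      exact hc
    -- the norm
    have hnorm : Algebra.norm F ((ζ - algebraMap F L w) / algebraMap F L c) * c ^ (m - 1) =
        ∑ i ∈ Finset.range m, w ^ i := by
      have h1 := norm_sub ζ hT w
      rw [hmin, natDegree_cyclotomic, Nat.totient_prime hm, heven.neg_one_pow, one_mul, hev] at h1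
      have h2 := Algebra.norm_algebraMap (R := F) (S := L) c
      rw [hdim] at h2
      rw [← h1, ← h2, ← map_mul, div_mul_cancel₀ _ hc']
    -- `-1` is a square
    have hsq : IsSquare (-1 : L) := by
      have := Fintype.ofFinite L
      rw [FiniteField.isSquare_neg_one_iff, Module.card_eq_pow_finrank (K := F) (V := L), hdim]
      obtain ⟨k, hk⟩ := heven
      rw [hk, ← two_mul, pow_mul]
      have h4 : Fintype.card F ^ 2 % 4 = 0 ∨ Fintype.card F ^ 2 % 4 = 1 := by
        have h5 : Fintype.card F % 4 = 0 ∨ Fintype.card F % 4 = 1 ∨ Fintype.card F % 4 = 2 ∨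
          Fintype.card F % 4 = 3 := by omega
        rcases h5 with h | h | h | h <;> simp [Nat.pow_mod, h]
      rcases h4 with h | h
      · rcases Nat.eq_zero_or_pos k with h0 | h0
        · simp [h0]
        · rw [Nat.pow_mod, h, zero_pow h0.ne']
          norm_num
      · rw [Nat.pow_mod, h, one_pow]
        norm_num
    rw [rep_eq_comp hm, comp_irreducible_iff hirr (by omega) ζ hroot hT]
    have hfac : (C c * X ^ n + C w).map (algebraMap F L) - C ζ =
        C (algebraMap F L c) * (X ^ n - C ((ζ - algebraMap F L w) / algebraMap F L c)) := by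
      simp only [Polynomial.map_add, Polynomial.map_mul, map_C, Polynomial.map_pow, map_X]
      rw [mul_sub, ← C_mul, mul_div_cancel₀ _ hc', C_sub]
      ring
    rw [hfac]
    have hassoc : Associated
        (C (algebraMap F L c) * (X ^ n - C ((ζ - algebraMap F L w) / algebraMap F L c)))
        (X ^ n - C ((ζ - algebraMap F L w) / algebraMap F L c)) :=
      associated_unit_mul_left _ _ (isUnit_C.2 (isUnit_iff_ne_zero.2 hc'))
    rw [hassoc.irreducible_iff, kummer_irreducible_iff (by omega) hsq]
    have hcardF : Nat.card F - 1 = Fintype.card F - 1 := by rw [Nat.card_eq_fintype_card]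
    constructor
    · intro h l hl hln y hy
      have hnn : y ^ l = Algebra.norm F ((ζ - algebraMap F L w) / algebraMap F L c) := by
        rw [← hnorm] at hy
        exact mul_right_cancel₀ (pow_ne_zero _ hc) hy
      obtain ⟨b, hb⟩ := (exists_pow_iff_norm (F := F) (L := L) hl.ne_zero
        (by rw [hcardF]; exact hdiv l hl hln)
        ((ζ - algebraMap F L w) / algebraMap F L c)).2 ⟨y, hnn⟩
      exact h l hl hln b hb
    · intro h l hl hln b hb
      obtain ⟨z, hz⟩ := (exists_pow_iff_norm (F := F) (L := L) hl.ne_zero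
        (by rw [hcardF]; exact hdiv l hl hln)
        ((ζ - algebraMap F L w) / algebraMap F L c)).1 ⟨b, hb⟩
      apply h l hl hln z
      rw [hz, hnorm]
  constructor
  · intro h
    obtain ⟨hm, ho⟩ := rep_irreducible (by omega) h3 h
    exact ⟨hm, ho, (key hm ho).1 h⟩
  · rintro ⟨hm, ho, h⟩
    exact (key hm ho).2 h

omit [Fintype F] in
theorem of_comp_irreducible {P h : F[X]} (hh : 1 ≤ h.natDegree) (hirr : Irreducible (P.comp h)) :
    Irreducible P := by
  have key : ∀ P : F[X], IsUnit (P.comp h) → IsUnit P := by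
    intro P hP
    have h1 := natDegree_eq_zero_of_isUnit hP
    rw [natDegree_comp] at h1
    have h2 : P.natDegree = 0 := by
      rcases Nat.mul_eq_zero.1 h1 with h | h
      · exact h
      · omega
    rw [eq_C_of_natDegree_eq_zero h2] at hP ⊢
    simpa using hP
  refine ⟨fun hu => hirr.not_isUnit ?_, fun A B hAB => ?_⟩
  · exact hu.map (compRingHom h)
  · rw [hAB, mul_comp] at hirr
    rcases hirr.isUnit_or_isUnit rfl with h | h
    · exact Or.inl (key A h)
    · exact Or.inr (key B h)

omit [Fintype F] in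
theorem rep_comp (f h : F[X]) (m : ℕ) : rep (f.comp h) m = (rep f m).comp h := by
  simp [rep, Polynomial.sum_comp]

omit [Fintype F] in
theorem comp_X_sub_C_irreducible {P : F[X]} (s : F) :
    Irreducible (P.comp (X - C s)) ↔ Irreducible P := by
  constructor
  · exact of_comp_irreducible (by rw [natDegree_X_sub_C])
  · intro h
    have h1 : (P.comp (X - C s)).comp (X + C s) = P := by
      rw [comp_assoc]
      simp
    rw [← h1] at h
    exact of_comp_irreducible (by rw [natDegree_X_add_C]) h

/-- the case of two: multiplication by an even power of `c` can be dropped -/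
theorem criterion_two (h2 : (2 : F) ≠ 0) {c : F} (hc : c ≠ 0) (w : F) {m : ℕ} (h3 : 3 ≤ m) :
    Irreducible (rep (C c * X ^ 2 + C w) m) ↔
      m.Prime ∧ orderOf ((Fintype.card F : ℕ) : ZMod m) = m - 1 ∧
        ¬ IsSquare (∑ i ∈ Finset.range m, w ^ i) := by
  have hdiv : ∀ l : ℕ, l.Prime → l ∣ 2 → l ∣ Fintype.card F - 1 := by
    intro l hl hl2
    have : l = 2 := (Nat.prime_dvd_prime_iff_eq hl Nat.prime_two).1 hl2
    subst this
    have hodd : Fintype.card F % 2 = 1 := by
      apply FiniteField.odd_card_of_char_ne_two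
      intro hch
      apply h2
      have := CharP.cast_eq_zero F (ringChar F)
      rw [hch] at this
      exact_mod_cast this
    omega
  rw [criterion hc w (by norm_num) hdiv h3]
  refine and_congr_right fun hm => and_congr_right fun _ => ?_
  have heven : Even (m - 1) := hm.even_sub_one (by omega)
  obtain ⟨k, hk⟩ := heven
  constructor
  · intro h hsq
    obtain ⟨r, hr⟩ := hsq
    apply h 2 Nat.prime_two dvd_rfl (r / c ^ k)
    rw [hr, hk, pow_add]
    field_simp
  · intro h l hl hl2 y hy
    have : l = 2 := (Nat.prime_dvd_prime_iff_eq hl Nat.prime_two).1 hl2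
    subst this
    apply h
    refine ⟨y * c ^ k, ?_⟩
    rw [← hy, hk, pow_add]
    ring

/-- Quadratic bases. -/
theorem criterion_quadratic (h2 : (2 : F) ≠ 0) {f : F[X]} (hf : f.natDegree = 2) {s : F}
    (hs : f.derivative.eval s = 0) {m : ℕ} (h3 : 3 ≤ m) :
    Irreducible (rep f m) ↔
      m.Prime ∧ orderOf ((Fintype.card F : ℕ) : ZMod m) = m - 1 ∧
        ¬ IsSquare (∑ i ∈ Finset.range m, (f.eval s) ^ i) := by
  have hc : f.coeff 2 ≠ 0 := by
    have : f.leadingCoeff ≠ 0 := by
      rw [Ne, leadingCoeff_eq_zero]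
      rintro rfl
      simp at hf
    rwa [leadingCoeff, hf] at this
  have hform : f = C (f.coeff 2) * X ^ 2 + C (f.coeff 1) * X + C (f.coeff 0) := by
    conv_lhs => rw [f.as_sum_range_C_mul_X_pow, hf]
    simp [Finset.sum_range_succ]
    ring
  have hd : 2 * f.coeff 2 * s + f.coeff 1 = 0 := by
    rw [hform] at hs
    simp at hs
    linear_combination hs
  have hcomp : f = (C (f.coeff 2) * X ^ 2 + C (f.eval s)).comp (X - C s) := by
    have hev : f.eval s = f.coeff 2 * s ^ 2 + f.coeff 1 * s + f.coeff 0 := by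
      conv_lhs => rw [hform]
      simp
    have h1 : f.coeff 1 = - (2 * f.coeff 2 * s) := by linear_combination hd
    have h5 : (C (f.coeff 2) * X ^ 2 + C (f.eval s) : F[X]).comp (X - C s) =
        C (f.coeff 2) * (X - C s) ^ 2 + C (f.eval s) := by
      simp
    have h6 : (C (2 : F) : F[X]) = 2 := rfl
    have h7 : (C (f.coeff 1) : F[X]) = - (2 * C (f.coeff 2) * C s) := by
      rw [h1, C_neg, C_mul, C_mul, h6]
    rw [h5, hev]
    conv_lhs => rw [hform]
    simp only [C_add, C_mul, C_pow]
    rw [h7]
    ring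
  conv_lhs => rw [hcomp]
  rw [rep_comp, comp_X_sub_C_irreducible, criterion_two h2 hc _ h3]

/-- Bases `h ^ l - 1`. -/
theorem none_of_pow_sub_one {l : ℕ} (hl : l.Prime) (hd : l ∣ Fintype.card F - 1) {h : F[X]}
    (hh : 1 ≤ h.natDegree) {m : ℕ} (h3 : 3 ≤ m) : ¬ Irreducible (rep (h ^ l - 1) m) := by
  intro hirr
  have h1 : h ^ l - 1 = (C 1 * X ^ l + C (-1) : F[X]).comp h := by
    simp
    ring
  rw [h1, rep_comp] at hirr
  have h2 := of_comp_irreducible hh hirr
  rw [criterion one_ne_zero (-1) hl.one_le (by
    intro q hq hql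
    rwa [(Nat.prime_dvd_prime_iff_eq hq hl).1 hql]) h3] at h2
  obtain ⟨hm, _, h4⟩ := h2
  apply h4 l hl dvd_rfl 1
  have hodd : Odd m := hm.odd_of_ne_two (by omega)
  rw [one_pow, one_pow, one_mul, neg_one_geom_sum, if_neg (by simpa using hodd)]

/-- Bases `c h ^ 2 + w` with `w = - 1` or `w` a primitive sixth root of unity. -/
theorem none_of_square (h2 : (2 : F) ≠ 0) {c w : F} (hc : c ≠ 0)
    (hw : w = -1 ∨ w ^ 2 - w + 1 = 0) {h : F[X]}
    (hh : 1 ≤ h.natDegree) {m : ℕ} (h3 : 3 ≤ m) : ¬ Irreducible (rep (C c * h ^ 2 + C w) m) := by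
  intro hirr
  have h1 : C c * h ^ 2 + C w = (C c * X ^ 2 + C w : F[X]).comp h := by
    simp
  rw [h1, rep_comp] at hirr
  have h4 := of_comp_irreducible hh hirr
  rw [criterion_two h2 hc w h3] at h4
  obtain ⟨hm, ho, h5⟩ := h4
  apply h5
  have hodd : Odd m := hm.odd_of_ne_two (by omega)
  rcases hw with rfl | hw
  · rw [neg_one_geom_sum, if_neg (by simpa using hodd)]
    exact IsSquare.one
  · have hw3 : w ^ 3 = -1 := by linear_combination (w + 1) * hw
    have hw6 : w ^ 6 = 1 := by
      rw [show w ^ 6 = (w ^ 3) ^ 2 by ring, hw3]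
      ring
    have hw0 : w ≠ 0 := by
      rintro rfl
      simp at hw
    have hw1 : w - 1 ≠ 0 := by
      intro h
      have : w = 1 := by linear_combination h
      rw [this] at hw
      norm_num at hw
    have hgs := geom_sum_mul w m
    by_cases hm3 : m = 3
    · -- then three divides `|F| - 1`, or the characteristic is three
      subst hm3
      exfalso
      have h6 : (Fintype.card F) % 3 ≠ 2 := by
        intro h7
        have h8 : w ^ (Fintype.card F - 1) = 1 := FiniteField.pow_card_sub_one_eq_one w hw0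
        have h9 : Fintype.card F - 1 = 3 * (Fintype.card F / 3) + 1 := by omega
        have h10 : w ^ 2 = 1 := by
          have h11 : (w ^ 2) ^ (Fintype.card F - 1) = 1 := by
            rw [← pow_mul, mul_comm, pow_mul, h8, one_pow]
          rw [h9, pow_succ, pow_mul, ← pow_mul w 2 3, hw6, one_pow, one_mul] at h11
          exact h11
        have h12 : w = 2 := by linear_combination h10 - hw
        rw [h12] at h10
        have h13 : ((3 : ℕ) : F) = 0 := by
          push_cast
          linear_combination h10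
        have h14 : ringChar F ∣ 3 := (ringChar.spec F 3).1 h13
        have h15 : (Fintype.card F : F) = 0 := FiniteField.cast_card_eq_zero F
        have h16 : ringChar F = 3 := by
          rcases (Nat.dvd_prime Nat.prime_three).1 h14 with h | h
          · exact absurd h (CharP.ringChar_ne_one)
          · exact h
        have h17 : ringChar F ∣ Fintype.card F := (ringChar.spec F _).1 h15
        rw [h16] at h17
        omega
      have h7 : (((Fintype.card F : ℕ) : ZMod 3)) = 0 ∨ ((Fintype.card F : ℕ) : ZMod 3) = 1 := by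
        rw [← ZMod.natCast_mod (Fintype.card F) 3]
        have : Fintype.card F % 3 = 0 ∨ Fintype.card F % 3 = 1 := by omega
        rcases this with h | h
        · left; rw [h]; rfl
        · right; rw [h]; rfl
      rcases h7 with h | h
      · rw [h, orderOf_zero] at ho
        omega
      · rw [h, orderOf_one] at ho
        omega
    · have hm6 : m % 6 = 1 ∨ m % 6 = 5 := by
        have h21 : m % 2 = 1 := Nat.odd_iff.1 hodd
        have h31 : m % 3 ≠ 0 := by
          intro h
          have := (Nat.prime_dvd_prime_iff_eq Nat.prime_three hm).1 (Nat.dvd_of_mod_eq_zero h)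
          omega
        omega
      have hmp : w ^ m = w ^ (m % 6) := by
        conv_lhs => rw [← Nat.div_add_mod m 6]
        rw [pow_add, pow_mul, hw6, one_pow, one_mul]
      rcases hm6 with h | h
      · rw [hmp, h, pow_one] at hgs
        have : ∑ i ∈ Finset.range m, w ^ i = 1 := mul_right_cancel₀ hw1 (by rw [hgs, one_mul])
        rw [this]
        exact IsSquare.one
      · rw [hmp, h] at hgs
        have : ∑ i ∈ Finset.range m, w ^ i = w ^ 2 := by
          apply mul_right_cancel₀ hw1
          rw [hgs]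
          linear_combination (w ^ 2 - 1) * hw3
        rw [this]
        exact IsSquare.sq w

/-- The criterion depends on the residue class of the length only. -/
theorem periodic {c : F} (hc : c ≠ 0) (w : F) {n : ℕ} (hn : 1 ≤ n)
    (hdiv : ∀ l : ℕ, l.Prime → l ∣ n → l ∣ Fintype.card F - 1) {m m' : ℕ} (h3 : 3 ≤ m)
    (h3' : 3 ≤ m') (hm : m.Prime) (hm' : m'.Prime)
    (ho : orderOf ((Fintype.card F : ℕ) : ZMod m) = m - 1)
    (ho' : orderOf ((Fintype.card F : ℕ) : ZMod m') = m' - 1)
    (hmod : m ≡ m' [MOD ringChar F * (Fintype.card F - 1)]) :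
    Irreducible (rep (C c * X ^ n + C w) m) ↔ Irreducible (rep (C c * X ^ n + C w) m') := by
  have hmod1 : m ≡ m' [MOD Fintype.card F - 1] := hmod.of_mul_left _
  have hmod2 : m ≡ m' [MOD ringChar F] := hmod.of_mul_right _
  have hpow : ∀ x : F, x ≠ 0 → x ^ m = x ^ m' := by
    intro x hx
    rw [← Units.val_mk0 hx]
    norm_cast
    rw [pow_eq_pow_iff_modEq]
    refine hmod1.of_dvd ?_
    classical
    rw [← Fintype.card_units]
    exact orderOf_dvd_card
  have hs : ∑ i ∈ Finset.range m, w ^ i = ∑ i ∈ Finset.range m', w ^ i := by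
    by_cases hw1 : w = 1
    · subst hw1
      simp only [one_pow, Finset.sum_const, Finset.card_range, nsmul_eq_mul, mul_one]
      exact (CharP.cast_eq_iff_mod_eq F (ringChar F)).2 hmod2
    · have hw1' : w - 1 ≠ 0 := sub_ne_zero.2 hw1
      apply mul_right_cancel₀ hw1'
      rw [geom_sum_mul, geom_sum_mul]
      by_cases hw0 : w = 0
      · rw [hw0, zero_pow (by omega), zero_pow (by omega)]
      · rw [hpow w hw0]
  have hc1 : c ^ (m - 1) = c ^ (m' - 1) := by
    apply mul_right_cancel₀ hc
    rw [← pow_succ, ← pow_succ, Nat.sub_add_cancel (by omega), Nat.sub_add_cancel (by omega),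
      hpow c hc]
  rw [criterion hc w hn hdiv h3, criterion hc w hn hdiv h3', hs, hc1]
  simp only [hm, hm', ho, ho', true_and]

end Pool.Agent.H539.FF
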