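import Pool.Agent.H666.LRC.Defs

set_option autoImplicit false

/-! LRC T1 and T2: decay of the cosine and sine transforms of functions of class `C²` (helper539). -/

open Filter Topology MeasureTheory

namespace Pool.Agent.H539.LRC

open Pool.Agent.H666.LRC

lemma hd_sin (u t : ℝ) : HasDerivAt (fun t => Real.sin (u * t)) (u * Real.cos (u * t)) t := by
  have h1 : HasDerivAt (fun t : ℝ => u * t) u t := by
    have := (hasDerivAt_id t).const_mul u
    rwa [mul_one] at this
  have h2 := (Real.hasDerivAt_sin (u * t)).comp t h1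
  rw [mul_comm] at h2
  exact h2

lemma hd_cos (u t : ℝ) : HasDerivAt (fun t => -Real.cos (u * t)) (u * Real.sin (u * t)) t := by
  have h1 : HasDerivAt (fun t : ℝ => u * t) u t := by
    have := (hasDerivAt_id t).const_mul u
    rwa [mul_one] at this
  have h2 := ((Real.hasDerivAt_cos (u * t)).comp t h1).neg
  have e : -(-Real.sin (u * t) * u) = u * Real.sin (u * t) := by ring
  rw [e] at h2
  exact h2

lemma ibp_cos (f f' : ℝ → ℝ) (hf : ∀ x, HasDerivAt f (f' x) x) (hc : Continuous f') (u : ℝ) :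
    u * ∫ t in (0 : ℝ)..1, f t * Real.cos (u * t) =
      f 1 * Real.sin u - ∫ t in (0 : ℝ)..1, f' t * Real.sin (u * t) := by
  have h := intervalIntegral.integral_mul_deriv_eq_deriv_mul (a := (0 : ℝ)) (b := 1) (u := f) (u' := f')
    (v := fun t => Real.sin (u * t)) (v' := fun t => u * Real.cos (u * t)) (fun x _ => hf x)
    (fun x _ => hd_sin u x) (hc.intervalIntegrable _ _) ((by fun_prop : Continuous fun t : ℝ =>
      u * Real.cos (u * t)).intervalIntegrable _ _)
  rw [mul_one, mul_zero, Real.sin_zero, mul_zero, sub_zero] at h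
  rw [← h, ← intervalIntegral.integral_const_mul]
  congr 1
  funext t
  ring

lemma ibp_sin (f f' : ℝ → ℝ) (hf : ∀ x, HasDerivAt f (f' x) x) (hc : Continuous f') (u : ℝ) :
    u * ∫ t in (0 : ℝ)..1, f t * Real.sin (u * t) =
      f 0 - f 1 * Real.cos u + ∫ t in (0 : ℝ)..1, f' t * Real.cos (u * t) := by
  have h := intervalIntegral.integral_mul_deriv_eq_deriv_mul (a := (0 : ℝ)) (b := 1) (u := f) (u' := f')
    (v := fun t => -Real.cos (u * t)) (v' := fun t => u * Real.sin (u * t)) (fun x _ => hf x)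
    (fun x _ => hd_cos u x) (hc.intervalIntegrable _ _) ((by fun_prop : Continuous fun t : ℝ =>
      u * Real.sin (u * t)).intervalIntegrable _ _)
  rw [mul_one, mul_zero, Real.cos_zero] at h
  have e1 : u * ∫ t in (0 : ℝ)..1, f t * Real.sin (u * t) =
      ∫ t in (0 : ℝ)..1, f t * (u * Real.sin (u * t)) := by
    rw [← intervalIntegral.integral_const_mul]
    congr 1
    funext t
    ring
  have e2 : ∫ t in (0 : ℝ)..1, f' t * -Real.cos (u * t) = -∫ t in (0 : ℝ)..1, f' t * Real.cos (u * t) := by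
    rw [← intervalIntegral.integral_neg]
    congr 1
    funext t
    ring
  rw [e1, h, e2]
  ring

lemma abs_int_le (f : ℝ → ℝ) (hf : Continuous f) (w : ℝ → ℝ) (hw : Continuous w) (hw1 : ∀ t, |w t| ≤ 1) :
    |∫ t in (0 : ℝ)..1, f t * w t| ≤ ∫ t in (0 : ℝ)..1, |f t| := by
  refine (intervalIntegral.abs_integral_le_integral_abs zero_le_one).trans ?_
  refine intervalIntegral.integral_mono_on zero_le_one ((hf.mul hw).abs.intervalIntegrable _ _)
    (hf.abs.intervalIntegrable _ _) fun t _ => ?_
  rw [abs_mul]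
  calc |f t| * |w t| ≤ |f t| * 1 := mul_le_mul_of_nonneg_left (hw1 t) (abs_nonneg _)
    _ = |f t| := mul_one _

lemma int_abs_nonneg (f : ℝ → ℝ) : 0 ≤ ∫ t in (0 : ℝ)..1, |f t| :=
  intervalIntegral.integral_nonneg zero_le_one fun _ _ => abs_nonneg _

/-- from a bound for `I` and for `u² I` to the decay -/
lemma decay (I A B x : ℝ) (hA : |I| ≤ A) (hB : |(2 * Real.pi * x) ^ 2 * I| ≤ B) :
    |2 * I| ≤ (2 * A + 2 * B) / (1 + x ^ 2) := by
  have hx : 0 < 1 + x ^ 2 := by positivity
  rw [le_div_iff₀ hx, abs_mul, abs_of_pos (show (0 : ℝ) < 2 by norm_num)]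
  rw [abs_mul, abs_of_nonneg (sq_nonneg _)] at hB
  have h1 : x ^ 2 * |I| ≤ (2 * Real.pi * x) ^ 2 * |I| := by
    refine mul_le_mul_of_nonneg_right ?_ (abs_nonneg _)
    have hpi : 1 ≤ (2 * Real.pi) ^ 2 := by
      have := Real.pi_gt_three
      nlinarith
    nlinarith [sq_nonneg x]
  nlinarith

theorem T1 : S_ctdecay := by
  intro g hg h1
  have hd0 : Differentiable ℝ g := hg.differentiable (by norm_num)
  have hg1 : ContDiff ℝ 1 (deriv g) := ((contDiff_succ_iff_deriv (n := 1)).1 hg).2.2
  have hd1 : Differentiable ℝ (deriv g) := hg1.differentiable (by norm_num)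
  have hc1 : Continuous (deriv g) := hg1.continuous
  have hc2 : Continuous (deriv (deriv g)) := hg1.continuous_deriv (by norm_num)
  have hc0 : Continuous g := hg.continuous
  refine ⟨2 * (∫ t in (0 : ℝ)..1, |g t|) +
    2 * (|deriv g 0| + |deriv g 1| + ∫ t in (0 : ℝ)..1, |deriv (deriv g) t|), ?_, fun x => ?_⟩
  · have := int_abs_nonneg g
    have := int_abs_nonneg (deriv (deriv g))
    positivity
  · unfold ct
    refine decay _ _ _ x (abs_int_le g hc0 _ (by fun_prop) fun t => Real.abs_cos_le_one _) ?_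
    set u := 2 * Real.pi * x with hu
    have e1 := ibp_cos g (deriv g) (fun x => (hd0 x).hasDerivAt) hc1 u
    have e2 := ibp_sin (deriv g) (deriv (deriv g)) (fun x => (hd1 x).hasDerivAt) hc2 u
    have e3 : u ^ 2 * ∫ t in (0 : ℝ)..1, g t * Real.cos (u * t) =
        -(deriv g 0 - deriv g 1 * Real.cos u + ∫ t in (0 : ℝ)..1, deriv (deriv g) t * Real.cos (u * t)) := by
      rw [sq, mul_assoc, e1, h1, ← e2]
      ring
    rw [e3, abs_neg]
    have h3 := abs_int_le (deriv (deriv g)) hc2 (fun t => Real.cos (u * t)) (by fun_prop)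
      fun t => Real.abs_cos_le_one _
    have h4 : |deriv g 1 * Real.cos u| ≤ |deriv g 1| := by
      rw [abs_mul]
      calc |deriv g 1| * |Real.cos u| ≤ |deriv g 1| * 1 :=
            mul_le_mul_of_nonneg_left (Real.abs_cos_le_one _) (abs_nonneg _)
        _ = |deriv g 1| := mul_one _
    refine (abs_add_le _ _).trans (add_le_add ((abs_sub _ _).trans (add_le_add le_rfl h4)) h3)

theorem T2 : S_stdecay := by
  intro g hg h0 h1
  have hd0 : Differentiable ℝ g := hg.differentiable (by norm_num)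
  have hg1 : ContDiff ℝ 1 (deriv g) := ((contDiff_succ_iff_deriv (n := 1)).1 hg).2.2
  have hd1 : Differentiable ℝ (deriv g) := hg1.differentiable (by norm_num)
  have hc1 : Continuous (deriv g) := hg1.continuous
  have hc2 : Continuous (deriv (deriv g)) := hg1.continuous_deriv (by norm_num)
  have hc0 : Continuous g := hg.continuous
  refine ⟨2 * (∫ t in (0 : ℝ)..1, |g t|) +
    2 * (|deriv g 1| + ∫ t in (0 : ℝ)..1, |deriv (deriv g) t|), ?_, fun x => ?_⟩
  · have := int_abs_nonneg g
    have := int_abs_nonneg (deriv (deriv g))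
    positivity
  · unfold st
    refine decay _ _ _ x (abs_int_le g hc0 _ (by fun_prop) fun t => Real.abs_sin_le_one _) ?_
    set u := 2 * Real.pi * x with hu
    have e1 := ibp_sin g (deriv g) (fun x => (hd0 x).hasDerivAt) hc1 u
    have e2 := ibp_cos (deriv g) (deriv (deriv g)) (fun x => (hd1 x).hasDerivAt) hc2 u
    have e3 : u ^ 2 * ∫ t in (0 : ℝ)..1, g t * Real.sin (u * t) =
        deriv g 1 * Real.sin u - ∫ t in (0 : ℝ)..1, deriv (deriv g) t * Real.sin (u * t) := by
      rw [sq, mul_assoc, e1, h0, h1, ← e2]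
      ring
    rw [e3]
    have h3 := abs_int_le (deriv (deriv g)) hc2 (fun t => Real.sin (u * t)) (by fun_prop)
      fun t => Real.abs_sin_le_one _
    have h4 : |deriv g 1 * Real.sin u| ≤ |deriv g 1| := by
      rw [abs_mul]
      calc |deriv g 1| * |Real.sin u| ≤ |deriv g 1| * 1 :=
            mul_le_mul_of_nonneg_left (Real.abs_sin_le_one _) (abs_nonneg _)
        _ = |deriv g 1| := mul_one _
    exact (abs_sub _ _).trans (add_le_add h4 h3)

end Pool.Agent.H539.LRC
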