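import Pool.Graph.R_pool_sql_team_seeded_3997aac3.H140.JQ.Red

/-!
# Powers of Gauss sums of order `q` modulo a prime `p = (A ^ q - B ^ q) / (A - B)`
-/

namespace Pool.Agent.H539.PR

open NumberField Finset Polynomial Pool.Agent.H140.FJ Pool.Agent.H140.JQ

section
variable {q : ℕ} [hq : Fact q.Prime] {p : ℕ} [hpf : Fact p.Prime] {A B : ℤ} (D : Dat q p A B)

include D in
theorem prod_rho_eq : ∏ t : (ZMod q)ˣ, rho q A B t = (p : Oq q) := by
  rw [← prod_prq D]
  simp_rw [rho]
  rw [Finset.prod_mul_distrib, E_sum (zq_full q), ← Finset.mul_sum, sum_units_zero D.h2, mul_zero,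
    E_zero, one_mul]

variable {R : Type*} [Field R] (φ : Oq q →+* R)

/-- the character with values in `R` -/
noncomputable def chR : MulChar (ZMod p) R := (chiq D).ringHomComp φ

theorem chR_apply (x : ZMod p) : chR D φ x = φ (chiq D x) := rfl

theorem chR_pow (n : ℕ) : chR D φ ^ n = (chiq D ^ n).ringHomComp φ := by
  rw [chR, MulChar.ringHomComp_pow]

theorem chR_pow_q : chR D φ ^ q = 1 := by
  ext x
  obtain ⟨c, hc⟩ := chiq_val D x
  rw [MulChar.pow_apply_coe, chR_apply, hc, map_pow, ← pow_mul, mul_comm, pow_mul, ← map_pow,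
    zq_full, map_one, one_pow, MulChar.one_apply_coe]

theorem chR_pow_ne (hz : IsPrimitiveRoot (φ (zq q)) q) {a : ℕ} (ha : (a : ZMod q) ≠ 0) :
    chR D φ ^ a ≠ 1 := by
  intro h
  apply chiq_pow_ne D a ha
  ext x
  obtain ⟨c, hc⟩ := chiq_val D x
  have h1 : (chR D φ ^ a) x = 1 := by rw [h, MulChar.one_apply_coe]
  rw [MulChar.pow_apply_coe, chR_apply, hc, map_pow, ← pow_mul, hz.pow_eq_one_iff_dvd] at h1
  rw [MulChar.pow_apply_coe, hc, ← pow_mul, ((zq_prim q).pow_eq_one_iff_dvd _).2 h1,
    MulChar.one_apply_coe]

theorem chR_neg_one : chR D φ (-1) = 1 := by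
  have h1 : (chR D φ ^ q) (((-1 : (ZMod p)ˣ)) : ZMod p) = 1 := by
    rw [chR_pow_q, MulChar.one_apply_coe]
  rw [MulChar.pow_apply_coe, ← map_pow] at h1
  have h2 : ((((-1 : (ZMod p)ˣ)) : ZMod p)) ^ q = -1 := by
    rw [Units.val_neg, Units.val_one, (q_odd D.h2).neg_one_pow]
  rw [h2] at h1
  exact h1

theorem orderOf_chR (hz : IsPrimitiveRoot (φ (zq q)) q) : orderOf (chR D φ) = q := by
  apply orderOf_eq_prime (chR_pow_q D φ)
  have := chR_pow_ne D φ hz (a := 1) (by simp)
  rwa [pow_one] at this

variable (ψ : AddChar (ZMod p) R)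

theorem gauss_step (hz : IsPrimitiveRoot (φ (zq q)) q) {n : ℕ} (hn : (n : ZMod q) ≠ 0)
    (hn1 : (n : ZMod q) + 1 ≠ 0) :
    gaussSum (chR D φ ^ n) ψ * gaussSum (chR D φ) ψ =
      gaussSum (chR D φ ^ (n + 1)) ψ * (-(legendreSym q (A - B) : R) *
        ∏ t ∈ TQ q (n : ZMod q) 1, φ (rho q A B t)) := by
  have h1 : chR D φ ^ n * chR D φ ≠ 1 := by
    rw [← pow_succ]
    exact chR_pow_ne D φ hz (by push_cast; exact hn1)
  rw [← jacobiSum_mul_nontrivial h1 ψ, ← pow_succ]
  congr 1
  have h2 : jacobiSum (chR D φ ^ n) (chR D φ) = φ (jacobiSum (chiq D ^ n) (chiq D ^ 1)) := by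
    rw [← jacobiSum_ringHomComp, ← chR_pow, ← chR_pow, pow_one]
  rw [h2, jac_exactq D hn (b := 1) (by simp) (by push_cast; exact hn1), map_mul, map_neg,
    map_intCast, map_prod, Nat.cast_one]

theorem gauss_neg (hz : IsPrimitiveRoot (φ (zq q)) q) (hψ : ψ.IsPrimitive) {n : ℕ}
    (hn1 : (n : ZMod q) + 1 = 0) :
    gaussSum (chR D φ ^ n) ψ * gaussSum (chR D φ) ψ = ∏ t : (ZMod q)ˣ, φ (rho q A B t) := by
  rw [← map_prod, prod_rho_eq D, map_natCast]
  have hne : chR D φ ≠ 1 := by
    have := chR_pow_ne D φ hz (a := 1) (by simp)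
    rwa [pow_one] at this
  have h1 := gaussSum_mul_gaussSum_pow_orderOf_sub_one hne hψ
  rw [orderOf_chR D φ hz, chR_neg_one, one_mul, ZMod.card] at h1
  have h2 : chR D φ ^ n = chR D φ ^ (q - 1) := by
    rw [pow_eq_pow_iff_modEq, orderOf_chR D φ hz, ← ZMod.natCast_eq_natCast_iff,
      Nat.cast_sub hq.out.one_lt.le, ZMod.natCast_self]
    push_cast
    linear_combination hn1
  rw [h2, mul_comm, h1]

theorem prod_TQ_ite (n : ℕ) (f : (ZMod q)ˣ → R) :
    ∏ t ∈ TQ q (n : ZMod q) 1, f t =
      ∏ t : (ZMod q)ˣ, f t ^ (if (t : ZMod q).val * n % q + (t : ZMod q).val < q then 1 else 0) := by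
  have h : ∀ t : (ZMod q)ˣ,
      t ∈ TQ q (n : ZMod q) 1 ↔ (t : ZMod q).val * n % q + (t : ZMod q).val < q := by
    intro t
    rw [mem_TQ, mul_one, ZMod.val_mul, ZMod.val_natCast, Nat.mul_mod_mod]
  have h2 : TQ q (n : ZMod q) 1 = univ.filter
      (fun t : (ZMod q)ˣ => (t : ZMod q).val * n % q + (t : ZMod q).val < q) := by
    ext t
    rw [h]
    simp
  rw [h2, Finset.prod_filter]
  apply Finset.prod_congr rfl
  intro t _
  split_ifs with h3
  · rw [pow_one]
  · rw [pow_zero]

/-- the powers of the Gauss sum -/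
theorem gauss_pow (hz : IsPrimitiveRoot (φ (zq q)) q) (hψ : ψ.IsPrimitive) {n : ℕ} (hn : 1 ≤ n) :
    ((n : ZMod q) ≠ 0 → gaussSum (chR D φ) ψ ^ n =
      (-(legendreSym q (A - B) : R)) ^ (n - 1) * gaussSum (chR D φ ^ n) ψ *
        ∏ t : (ZMod q)ˣ, φ (rho q A B t) ^ (n - 1 - n * (t : ZMod q).val / q)) ∧
    ((n : ZMod q) = 0 → gaussSum (chR D φ) ψ ^ n =
      (-(legendreSym q (A - B) : R)) ^ n *
        ∏ t : (ZMod q)ˣ, φ (rho q A B t) ^ (n - n * (t : ZMod q).val / q)) := by
  have hq0 : 0 < q := hq.out.pos
  have hq1 : 1 < q := hq.out.one_lt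
  have hval : ∀ t : (ZMod q)ˣ, 1 ≤ (t : ZMod q).val ∧ (t : ZMod q).val < q := fun t =>
    ⟨val_unit_pos t, ZMod.val_lt _⟩
  have hdivlt : ∀ (t : (ZMod q)ˣ) (n : ℕ), 1 ≤ n → n * (t : ZMod q).val / q ≤ n - 1 := by
    intro t n hn
    have h1 : n * (t : ZMod q).val / q < n := by
      rw [Nat.div_lt_iff_lt_mul hq0]
      exact Nat.mul_lt_mul_of_pos_left (hval t).2 (by omega)
    omega
  have hleg : (-(legendreSym q (A - B) : R)) * (-(legendreSym q (A - B) : R)) = 1 := by
    rcases leg_cases D with h | h <;> rw [h] <;> simp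
  induction n, hn using Nat.le_induction with
  | base =>
    constructor
    · intro _
      rw [pow_one, pow_one, Nat.sub_self, pow_zero, one_mul]
      have : ∀ t : (ZMod q)ˣ, φ (rho q A B t) ^ (0 - 1 * (t : ZMod q).val / q) = 1 := by
        intro t
        rw [Nat.zero_sub, pow_zero]
      rw [Finset.prod_congr rfl fun t _ => this t, Finset.prod_const_one, mul_one]
    · intro h
      simp at h
  | succ n hn ih =>
    by_cases h0 : (n : ZMod q) = 0
    · -- `n` divisible by `q`
      have ih0 := ih.2 h0
      have hn1 : ((n + 1 : ℕ) : ZMod q) ≠ 0 := by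
        push_cast
        rw [h0, zero_add]
        exact one_ne_zero
      refine ⟨fun _ => ?_, fun h => absurd h hn1⟩
      have hdvd : q ∣ n := (ZMod.natCast_eq_zero_iff _ _).1 h0
      have hch : chR D φ ^ (n + 1) = chR D φ := by
        obtain ⟨k, hk⟩ := hdvd
        rw [pow_succ, hk, pow_mul, chR_pow_q, one_pow, one_mul]
      rw [pow_succ, ih0, hch, Nat.add_sub_cancel]
      have he : ∀ t : (ZMod q)ˣ, (n + 1) * (t : ZMod q).val / q = n * (t : ZMod q).val / q := by
        intro t
        obtain ⟨k, hk⟩ := hdvd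
        rw [add_mul, one_mul, hk, mul_assoc, Nat.mul_add_div hq0, Nat.mul_div_cancel_left _ hq0,
          Nat.div_eq_of_lt (hval t).2, add_zero]
      simp_rw [he]
      ring
    · have ih1 := ih.1 h0
      by_cases h1 : (n : ZMod q) + 1 = 0
      · have hn1 : ((n + 1 : ℕ) : ZMod q) = 0 := by
          push_cast
          exact h1
        refine ⟨fun h => absurd hn1 h, fun _ => ?_⟩
        have hdvd : q ∣ n + 1 := (ZMod.natCast_eq_zero_iff _ _).1 hn1
        have hsign : (-(legendreSym q (A - B) : R)) ^ (n + 1) =
            (-(legendreSym q (A - B) : R)) ^ (n - 1) := by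
          rw [show n + 1 = (n - 1) + 1 + 1 by omega, pow_succ, pow_succ, mul_assoc, hleg, mul_one]
        calc gaussSum (chR D φ) ψ ^ (n + 1)
            = (-(legendreSym q (A - B) : R)) ^ (n - 1) *
              (gaussSum (chR D φ ^ n) ψ * gaussSum (chR D φ) ψ) *
              ∏ t : (ZMod q)ˣ, φ (rho q A B t) ^ (n - 1 - n * (t : ZMod q).val / q) := by
              rw [pow_succ, ih1]; ring
          _ = (-(legendreSym q (A - B) : R)) ^ (n + 1) *
              ∏ t : (ZMod q)ˣ, φ (rho q A B t) ^ (n + 1 - (n + 1) * (t : ZMod q).val / q) := by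
              rw [gauss_neg D φ ψ hz hψ h1, hsign, mul_assoc, ← Finset.prod_mul_distrib]
              congr 1
              apply Finset.prod_congr rfl
              intro t _
              rw [← pow_succ']
              congr 1
              have h5 := hval t
              have h6 := hdivlt t n hn
              obtain ⟨k, hk⟩ := hdvd
              have h7 : (n + 1) * (t : ZMod q).val / q = k * (t : ZMod q).val := by
                rw [hk, mul_assoc, Nat.mul_div_cancel_left _ hq0]
              have h8 : n * (t : ZMod q).val / q = k * (t : ZMod q).val - 1 := by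
                have hk1 : 1 ≤ k := by
                  rcases Nat.eq_zero_or_pos k with h | h
                  · rw [h] at hk; omega
                  · exact h
                have hkt : 1 ≤ k * (t : ZMod q).val := Nat.mul_pos hk1 h5.1
                have e : n * (t : ZMod q).val = q * (k * (t : ZMod q).val - 1) +
                    (q - (t : ZMod q).val) := by
                  have e2 : (n + 1) * (t : ZMod q).val = q * (k * (t : ZMod q).val) := by
                    rw [hk, mul_assoc]
                  have e3 : q * (k * (t : ZMod q).val) = q * (k * (t : ZMod q).val - 1) + q := by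
                    conv_lhs => rw [show k * (t : ZMod q).val = (k * (t : ZMod q).val - 1) + 1 by omega]
                    ring
                  rw [add_mul, one_mul] at e2
                  omega
                rw [e, Nat.mul_add_div hq0, Nat.div_eq_of_lt (by omega), add_zero]
              have h9 := hdivlt t (n + 1) (by omega)
              rw [h7] at h9 ⊢
              rw [h8] at h6 ⊢
              have hkt : 1 ≤ k * (t : ZMod q).val := by
                have hk1 : 1 ≤ k := by
                  rcases Nat.eq_zero_or_pos k with h | h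
                  · rw [h] at hk; omega
                  · exact h
                exact Nat.mul_pos hk1 h5.1
              omega
      · have hn1 : ((n + 1 : ℕ) : ZMod q) ≠ 0 := by
          push_cast
          exact h1
        refine ⟨fun _ => ?_, fun h => absurd h hn1⟩
        calc gaussSum (chR D φ) ψ ^ (n + 1)
            = (-(legendreSym q (A - B) : R)) ^ (n - 1) *
              (gaussSum (chR D φ ^ n) ψ * gaussSum (chR D φ) ψ) *
              ∏ t : (ZMod q)ˣ, φ (rho q A B t) ^ (n - 1 - n * (t : ZMod q).val / q) := by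
              rw [pow_succ, ih1]; ring
          _ = (-(legendreSym q (A - B) : R)) ^ ((n - 1) + 1) * gaussSum (chR D φ ^ (n + 1)) ψ *
              ((∏ t ∈ TQ q (n : ZMod q) 1, φ (rho q A B t)) *
              ∏ t : (ZMod q)ˣ, φ (rho q A B t) ^ (n - 1 - n * (t : ZMod q).val / q)) := by
              rw [gauss_step D φ ψ hz h0 h1, pow_succ]; ring
          _ = _ := by
              rw [prod_TQ_ite, ← Finset.prod_mul_distrib, show n - 1 + 1 = n + 1 - 1 by omega]
              congr 1
              apply Finset.prod_congr rfl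
              intro t _
              rw [← pow_add]
              congr 1
              have h5 := hval t
              have h6 := hdivlt t n hn
              have h9 := hdivlt t (n + 1) (by omega)
              have e1 : (n + 1) * (t : ZMod q).val = q * (n * (t : ZMod q).val / q) +
                  ((t : ZMod q).val * n % q + (t : ZMod q).val) := by
                have := Nat.div_add_mod (n * (t : ZMod q).val) q
                rw [mul_comm (t : ZMod q).val n, add_mul, one_mul]
                omega
              have e2 : (n + 1) * (t : ZMod q).val / q = n * (t : ZMod q).val / q +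
                  ((t : ZMod q).val * n % q + (t : ZMod q).val) / q := by
                rw [e1, Nat.mul_add_div hq0]
              split_ifs with h10
              · rw [Nat.div_eq_of_lt h10] at e2
                omega
              · have h11 : ((t : ZMod q).val * n % q + (t : ZMod q).val) / q = 1 := by
                  have h12 := Nat.mod_lt ((t : ZMod q).val * n) hq0
                  rw [Nat.div_eq_iff hq0]
                  omega
                rw [h11] at e2
                omega

end

end Pool.Agent.H539.PR
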