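import Pool.Agent.H539.PR1

/-!
# The power residue character of a prime `l` modulo `p = (A ^ q - B ^ q) / (A - B)` in
# characteristic `l`
-/

namespace Pool.Agent.H539.PR

open NumberField Finset Polynomial Pool.Agent.H140.FJ Pool.Agent.H140.JQ

section
variable {q : ℕ} [hq : Fact q.Prime] {p : ℕ} [hpf : Fact p.Prime] {A B : ℤ} (D : Dat q p A B)
variable {R : Type*} [Field R] (φ : Oq q →+* R) (ψ : AddChar (ZMod p) R)

/-- Frobenius -/
theorem frob_law (hz : IsPrimitiveRoot (φ (zq q)) q) (hψ : ψ.IsPrimitive) {l : ℕ}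
    [hl : Fact l.Prime] [CharP R l] (hlq : l ≠ q) (hlp : l ≠ p) :
    chR D φ (l : ZMod p) ^ l *
      ∏ t : (ZMod q)ˣ, φ (rho q A B t) ^ (l - 1 - l * (t : ZMod q).val / q) = 1 := by
  have hlq0 : (l : ZMod q) ≠ 0 := by
    rw [Ne, ZMod.natCast_eq_zero_iff, Nat.prime_dvd_prime_iff_eq hq.out hl.out]
    exact fun h => hlq h.symm
  have hlp0 : (l : ZMod p) ≠ 0 := by
    rw [Ne, ZMod.natCast_eq_zero_iff, Nat.prime_dvd_prime_iff_eq hpf.out hl.out]
    exact fun h => hlp h.symm
  have h1 := (gauss_pow D φ ψ hz hψ hl.out.one_le).1 hlq0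
  have hsign : (-(legendreSym q (A - B) : R)) ^ (l - 1) = 1 := by
    have h2 : (-(legendreSym q (A - B) : R)) = 1 ∨ (-(legendreSym q (A - B) : R)) = -1 := by
      rcases leg_cases D with h | h
      · right; rw [h]; simp
      · left; rw [h]; simp
    rcases h2 with h | h
    · rw [h, one_pow]
    · rw [h]
      rcases hl.out.eq_two_or_odd' with h3 | h3
      · subst h3
        have : (2 : R) = 0 := by exact_mod_cast CharP.cast_eq_zero R 2
        norm_num
        linear_combination -this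
      · exact (Nat.Odd.sub_odd h3 odd_one).neg_one_pow
  rw [hsign, one_mul, gaussSum_frob l, AddChar.pow_mulShift] at h1
  have h2 := gaussSum_mulShift (chR D φ ^ l) ψ (Units.mk0 (l : ZMod p) hlp0)
  rw [Units.val_mk0] at h2
  rw [h1] at h2
  have hne : gaussSum (chR D φ ^ l) ψ ≠ 0 := by
    apply gaussSum_ne_zero_of_nontrivial _ (chR_pow_ne D φ hz hlq0) hψ
    rw [ZMod.card, Ne, CharP.cast_eq_zero_iff R l, Nat.prime_dvd_prime_iff_eq hl.out hpf.out]
    exact hlp
  apply mul_left_cancel₀ hne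
  rw [mul_one]
  nth_rewrite 2 [← h2]
  rw [MulChar.pow_apply' _ hl.out.ne_zero]
  ring

end

/-- the exponents `[l t / q] / t`, summed over `t` -/
noncomputable def lerch (q l : ℕ) [Fact q.Prime] : ZMod q :=
  ∑ t : (ZMod q)ˣ, ((t⁻¹ : (ZMod q)ˣ) : ZMod q) * ((l * (t : ZMod q).val / q : ℕ) : ZMod q)

section
variable {q : ℕ} [hq : Fact q.Prime] {p : ℕ} [hpf : Fact p.Prime] {A B : ℤ} (D : Dat q p A B)

theorem phi_one_chiq (x : (ZMod p)ˣ) :
    phiq D 1 (chiq D x) = (x : ZMod p) ^ ((p - 1) / q) := by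
  rw [phi_chiq, Units.val_one]
  have : (1 : ZMod q).val = 1 := by
    have : Fact (1 < q) := ⟨hq.out.one_lt⟩
    exact ZMod.val_one q
  rw [this, one_mul, Mq]

include D in
/-- the index law, for a primitive root of unity in any field of characteristic `l` -/
theorem index_law {l : ℕ} [hl : Fact l.Prime] (hlq : l ≠ q) (hlp : l ≠ p) {L : Type*} [Field L]
    [CharP L l] {z : L} (hz : IsPrimitiveRoot z q) (c : ZMod q)
    (hc : (l : ZMod p) ^ ((p - 1) / q) = E (gg p A B) c) :
    (∏ t : (ZMod q)ˣ, ((A : L) - (B : L) * E z ((t⁻¹ : (ZMod q)ˣ) : ZMod q)) ^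
      (l - 1 - l * (t : ZMod q).val / q)) * E z ((l : ZMod q) * c) =
      E z (bet q A B * lerch q l) := by
  have hlp0 : (l : ZMod p) ≠ 0 := by
    rw [Ne, ZMod.natCast_eq_zero_iff, Nat.prime_dvd_prime_iff_eq hpf.out hl.out]
    exact fun h => hlp h.symm
  -- a primitive additive character
  have hch : ringChar L ≠ ringChar (ZMod p) := by
    rw [ZMod.ringChar_zmod_n, ringChar.eq L l]
    exact hlp
  let ψ := AddChar.FiniteField.primitiveChar (ZMod p) L hch
  let R := CyclotomicField ψ.n L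
  have hcp : CharP R l := charP_of_injective_algebraMap (algebraMap L R).injective l
  set z' : R := algebraMap L R z with hz'
  have hzp : IsPrimitiveRoot z' q := hz.map_of_injective (algebraMap L R).injective
  obtain ⟨φ, hφ⟩ := exists_liftq q z' (geom_zero hzp.pow_eq_one (hzp.ne_one hq.out.one_lt))
  have hφz : IsPrimitiveRoot (φ (zq q)) q := by rw [hφ]; exact hzp
  have h1 := frob_law D φ ψ.char hφz ψ.prim hlq hlp (l := l)
  -- the value of the character
  have h2 : chR D φ (l : ZMod p) = E z' c := by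
    obtain ⟨e, he⟩ := chiq_val D (Units.mk0 (l : ZMod p) hlp0)
    have h3 := phi_one_chiq D (Units.mk0 (l : ZMod p) hlp0)
    rw [he, map_pow, phiq_z, Units.val_mk0, hc, Units.val_one, E_one (gg_pow D)] at h3
    have h4 : (e : ZMod q) = c := by
      have h5 : gg p A B ^ e = gg p A B ^ c.val := h3
      have h6 := (gg_prim D).pow_inj (i := e % q) (j := c.val) (Nat.mod_lt _ hq.out.pos)
        (ZMod.val_lt c) (by rw [pow_mod_of_pow_eq_one (gg_pow D), h5])
      rw [← ZMod.natCast_mod, h6, ZMod.natCast_zmod_val]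
    rw [Units.val_mk0] at he
    rw [chR_apply, he, map_pow, hφ, ← h4, E_natCast hzp.pow_eq_one]
  -- collect
  have h3 : ∀ t : (ZMod q)ˣ, φ (rho q A B t) =
      E z' (bet q A B * ((t⁻¹ : (ZMod q)ˣ) : ZMod q)) *
        ((A : R) - (B : R) * E z' ((t⁻¹ : (ZMod q)ˣ) : ZMod q)) := by
    intro t
    rw [rho, prq, map_mul, map_sub, map_mul, map_intCast, map_intCast, map_E, map_E, hφ]
  simp_rw [h3, mul_pow] at h1
  rw [Finset.prod_mul_distrib, h2] at h1
  simp_rw [E_pow_nat hzp.pow_eq_one] at h1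
  rw [E_sum hzp.pow_eq_one] at h1
  have hexp : ∑ t : (ZMod q)ˣ, bet q A B * ((t⁻¹ : (ZMod q)ˣ) : ZMod q) *
      ((l - 1 - l * (t : ZMod q).val / q : ℕ) : ZMod q) = -(bet q A B * lerch q l) := by
    have h4 : ∀ t : (ZMod q)ˣ, bet q A B * ((t⁻¹ : (ZMod q)ˣ) : ZMod q) *
        ((l - 1 - l * (t : ZMod q).val / q : ℕ) : ZMod q) =
        bet q A B * ((l : ZMod q) - 1) * ((t⁻¹ : (ZMod q)ˣ) : ZMod q) -
        bet q A B * (((t⁻¹ : (ZMod q)ˣ) : ZMod q) *
          ((l * (t : ZMod q).val / q : ℕ) : ZMod q)) := by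
      intro t
      have h5 : l * (t : ZMod q).val / q ≤ l - 1 := by
        have : l * (t : ZMod q).val / q < l := by
          rw [Nat.div_lt_iff_lt_mul hq.out.pos]
          exact Nat.mul_lt_mul_of_pos_left (ZMod.val_lt _) hl.out.pos
        omega
      rw [Nat.cast_sub h5, Nat.cast_sub hl.out.one_le, Nat.cast_one]
      ring
    simp_rw [h4]
    rw [Finset.sum_sub_distrib, ← Finset.mul_sum, ← Finset.mul_sum, sum_units_zero D.h2, mul_zero,
      zero_sub, lerch]
  rw [hexp] at h1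
  have h6 : (∏ t : (ZMod q)ˣ, ((A : R) - (B : R) * E z' ((t⁻¹ : (ZMod q)ˣ) : ZMod q)) ^
      (l - 1 - l * (t : ZMod q).val / q)) * E z' ((l : ZMod q) * c) =
      E z' (bet q A B * lerch q l) := by
    have h7 := E_neg hzp.pow_eq_one (bet q A B * lerch q l)
    calc (∏ t : (ZMod q)ˣ, ((A : R) - (B : R) * E z' ((t⁻¹ : (ZMod q)ˣ) : ZMod q)) ^
          (l - 1 - l * (t : ZMod q).val / q)) * E z' ((l : ZMod q) * c)
        = (E z' (c * (l : ZMod q)) * (E z' (-(bet q A B * lerch q l)) *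
          ∏ t : (ZMod q)ˣ, ((A : R) - (B : R) * E z' ((t⁻¹ : (ZMod q)ˣ) : ZMod q)) ^
          (l - 1 - l * (t : ZMod q).val / q))) * E z' (bet q A B * lerch q l) := by
          rw [mul_comm (l : ZMod q) c]
          linear_combination (-(E z' (c * (l : ZMod q)) *
            ∏ t : (ZMod q)ˣ, ((A : R) - (B : R) * E z' ((t⁻¹ : (ZMod q)ˣ) : ZMod q)) ^
            (l - 1 - l * (t : ZMod q).val / q))) * h7
      _ = _ := by rw [h1, one_mul]
  apply (algebraMap L R).injective
  rw [map_mul, map_prod, map_E, map_E, ← hz']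
  simp only [map_pow, map_sub, map_mul, map_intCast, map_E, ← hz']
  exact h6

end

end Pool.Agent.H539.PR
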