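import Pool.Agent.H539.PR2

/-!
# Lerch's congruence and closed forms of the index
-/

namespace Pool.Agent.H539.PR

open NumberField Finset Polynomial Pool.Agent.H140.FJ Pool.Agent.H140.JQ

/-- the Fermat quotient -/
def fq (q l : ℕ) : ZMod q := ((((l ^ (q - 1) - 1) / q : ℕ)) : ZMod q)

section
variable {q : ℕ} [hq : Fact q.Prime]

theorem prod_one_add_of_sq_zero {S ι : Type*} [CommRing S] (e : S) (he : e * e = 0)
    (s : Finset ι) (f : ι → S) : ∏ i ∈ s, (1 + e * f i) = 1 + e * ∑ i ∈ s, f i := by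
  classical
  induction s using Finset.induction_on with
  | empty => simp
  | insert a s ha ih =>
    rw [Finset.prod_insert ha, Finset.sum_insert ha, ih]
    linear_combination (f a * ∑ i ∈ s, f i) * he

theorem lerch_aux {l : ℕ} (hl : ¬ q ∣ l) {S : Type*} [CommRing S] (hsq : (q : S) * (q : S) = 0)
    (π : S →+* ZMod q) (hkill : ∀ x : S, (q : S) * x = 0 → π x = 0)
    (hun : ∀ n : ℕ, n.Coprime q → IsUnit (n : S)) : lerch q l = (l : ZMod q) * fq q l := by
  have hq0 : 0 < q := hq.out.pos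
  have hlq0 : (l : ZMod q) ≠ 0 := by rwa [Ne, ZMod.natCast_eq_zero_iff]
  obtain ⟨ul, hul⟩ : ∃ u : (ZMod q)ˣ, (u : ZMod q) = l := ⟨Units.mk0 (l : ZMod q) hlq0, rfl⟩
  have hw' : ∀ t : (ZMod q)ˣ, ∃ w : Sˣ, (w : S) = ((t : ZMod q).val : S) := fun t =>
    hun _ (ZMod.val_coe_unit_coprime t)
  choose w hw using hw'
  have hval : ∀ t : (ZMod q)ˣ, ((ul * t : (ZMod q)ˣ) : ZMod q).val =
      l * (t : ZMod q).val % q := by
    intro t
    rw [Units.val_mul, hul, ZMod.val_mul, ZMod.val_natCast, Nat.mod_mul_mod]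
  -- division
  have hdiv : ∀ t : (ZMod q)ˣ, (l : S) * (w t : S) =
      (w (ul * t) : S) * (1 + (q : S) *
        (((l * (t : ZMod q).val / q : ℕ) : S) * (((w (ul * t))⁻¹ : Sˣ) : S))) := by
    intro t
    have h2 := Nat.div_add_mod (l * (t : ZMod q).val) q
    rw [← hval t] at h2
    have h3 := congrArg (Nat.cast (R := S)) h2
    rw [Nat.cast_add, Nat.cast_mul, Nat.cast_mul, ← hw t, ← hw (ul * t)] at h3
    have h4 : ((w (ul * t) : Sˣ) : S) * (((w (ul * t))⁻¹ : Sˣ) : S) = 1 := Units.mul_inv _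
    linear_combination -h3 - (q : S) * ((l * (t : ZMod q).val / q : ℕ) : S) * h4
  have hprod : (l : S) ^ (q - 1) * ∏ t : (ZMod q)ˣ, (w t : S) =
      (∏ t : (ZMod q)ˣ, (w t : S)) * (1 + (q : S) *
        ∑ t : (ZMod q)ˣ, (((l * (t : ZMod q).val / q : ℕ) : S) * (((w (ul * t))⁻¹ : Sˣ) : S))) := by
    rw [← prod_one_add_of_sq_zero (q : S) hsq]
    have h1 : ∏ t : (ZMod q)ˣ, (w t : S) = ∏ t : (ZMod q)ˣ, (w (ul * t) : S) :=
      (Fintype.prod_equiv (Equiv.mulLeft ul) _ _ (fun t => rfl)).symm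
    conv_rhs => rw [h1]
    rw [← Finset.prod_mul_distrib]
    have h2 : (l : S) ^ (q - 1) = ∏ t : (ZMod q)ˣ, (l : S) := by
      rw [Finset.prod_const, Finset.card_univ, ZMod.card_units_eq_totient,
        Nat.totient_prime hq.out]
    rw [h2, ← Finset.prod_mul_distrib]
    exact Finset.prod_congr rfl fun t _ => hdiv t
  have hunit : IsUnit (∏ t : (ZMod q)ˣ, (w t : S)) := by
    rw [← Units.coe_prod]
    exact Units.isUnit _
  have hpow : (l : S) ^ (q - 1) = 1 + (q : S) *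
      ∑ t : (ZMod q)ˣ, (((l * (t : ZMod q).val / q : ℕ) : S) * (((w (ul * t))⁻¹ : Sˣ) : S)) := by
    apply hunit.mul_right_cancel
    rw [hprod, mul_comm]
  -- the Fermat quotient
  have hpos : 1 ≤ l ^ (q - 1) := Nat.one_le_pow _ _ (by
    rcases Nat.eq_zero_or_pos l with h | h
    · rw [h] at hl; exact absurd (dvd_zero q) hl
    · exact h)
  have hfl : q * ((l ^ (q - 1) - 1) / q) = l ^ (q - 1) - 1 := by
    apply Nat.mul_div_cancel'
    have h1 : ((l ^ (q - 1) - 1 : ℕ) : ZMod q) = 0 := by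
      rw [Nat.cast_sub hpos]
      push_cast
      rw [ZMod.pow_card_sub_one_eq_one hlq0, sub_self]
    rwa [ZMod.natCast_eq_zero_iff] at h1
  have hpow2 : (l : S) ^ (q - 1) = 1 + (q : S) * (((l ^ (q - 1) - 1) / q : ℕ) : S) := by
    have h1 : l ^ (q - 1) = 1 + q * ((l ^ (q - 1) - 1) / q) := by omega
    have h2 := congrArg (Nat.cast (R := S)) h1
    rw [Nat.cast_pow, Nat.cast_add, Nat.cast_one, Nat.cast_mul] at h2
    exact h2
  have hzero : (q : S) * ((((l ^ (q - 1) - 1) / q : ℕ) : S) -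
      ∑ t : (ZMod q)ˣ, (((l * (t : ZMod q).val / q : ℕ) : S) *
        (((w (ul * t))⁻¹ : Sˣ) : S))) = 0 := by
    linear_combination hpow - hpow2
  have h1 := hkill _ hzero
  rw [map_sub, map_natCast, map_sum] at h1
  have h2 : ∀ t : (ZMod q)ˣ, π (((l * (t : ZMod q).val / q : ℕ) : S) *
      (((w (ul * t))⁻¹ : Sˣ) : S)) = (l : ZMod q)⁻¹ * (((t⁻¹ : (ZMod q)ˣ) : ZMod q) *
        ((l * (t : ZMod q).val / q : ℕ) : ZMod q)) := by
    intro t
    rw [map_mul, map_natCast]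
    have h3 : π ((w (ul * t) : Sˣ) : S) * π ((((w (ul * t))⁻¹ : Sˣ)) : S) = 1 := by
      rw [← map_mul, Units.mul_inv, map_one]
    rw [hw (ul * t), map_natCast, ZMod.natCast_zmod_val] at h3
    have h4 : π ((((w (ul * t))⁻¹ : Sˣ)) : S) = (l : ZMod q)⁻¹ * ((t⁻¹ : (ZMod q)ˣ) : ZMod q) := by
      have h5 : ((ul * t : (ZMod q)ˣ) : ZMod q) ≠ 0 := Units.ne_zero _
      apply mul_left_cancel₀ h5
      rw [h3, Units.val_mul, hul]
      have h6 : (t : ZMod q) * ((t⁻¹ : (ZMod q)ˣ) : ZMod q) = 1 := Units.mul_inv t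
      have h7 : (l : ZMod q) * (l : ZMod q)⁻¹ = 1 := mul_inv_cancel₀ hlq0
      linear_combination (-(l : ZMod q) * (l : ZMod q)⁻¹) * h6 - h7
    rw [h4]
    ring
  simp_rw [h2] at h1
  rw [← Finset.mul_sum] at h1
  have h3 : (fq q l) - (l : ZMod q)⁻¹ * lerch q l = 0 := h1
  have h7 : (l : ZMod q) * (l : ZMod q)⁻¹ = 1 := mul_inv_cancel₀ hlq0
  linear_combination (-(l : ZMod q)) * h3 - (lerch q l) * h7

/-- **Lerch's congruence** -/
theorem lerch_eq {l : ℕ} (hl : ¬ q ∣ l) : lerch q l = (l : ZMod q) * fq q l := by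
  have hq0 : 0 < q := hq.out.pos
  have hdvd : q ∣ q ^ 2 := dvd_pow_self q (by norm_num)
  have : NeZero (q ^ 2) := ⟨by positivity⟩
  refine lerch_aux (S := ZMod (q ^ 2)) hl ?_ (ZMod.castHom hdvd (ZMod q)) ?_ ?_
  · have h1 : ((q ^ 2 : ℕ) : ZMod (q ^ 2)) = 0 := ZMod.natCast_self (q ^ 2)
    rw [← Nat.cast_mul, ← pow_two]
    exact h1
  · intro x hx
    have h1 : ((q * x.val : ℕ) : ZMod (q ^ 2)) = 0 := by
      rw [Nat.cast_mul, ZMod.natCast_zmod_val]
      exact hx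
    rw [ZMod.natCast_eq_zero_iff] at h1
    have h2 : q ∣ x.val := by
      have h3 : q * q ∣ q * x.val := by
        have : q ^ 2 = q * q := pow_two q
        rwa [← this]
      exact Nat.dvd_of_mul_dvd_mul_left hq0 h3
    rw [← ZMod.natCast_zmod_val x, map_natCast, ZMod.natCast_eq_zero_iff]
    exact h2
  · intro n hn
    rw [ZMod.isUnit_iff_coprime]
    exact hn.pow_right 2

end

/-! ### closed forms -/

section
variable {q : ℕ} [hq : Fact q.Prime] {l : ℕ} [hl : Fact l.Prime] {L : Type*} [Field L] [CharP L l]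

/-- the exponent -/
abbrev ee (q l : ℕ) (t : (ZMod q)ˣ) : ℕ := l - 1 - l * (t : ZMod q).val / q

theorem ee_neg (hlq : l ≠ q) (t : (ZMod q)ˣ) :
    ee q l (-t) = l * (t : ZMod q).val / q ∧ ee q l t + l * (t : ZMod q).val / q = l - 1 := by
  have hq0 : 0 < q := hq.out.pos
  have h1 := val_neg_addq (unit_ne t)
  have hlt : l * (t : ZMod q).val / q ≤ l - 1 := by
    have : l * (t : ZMod q).val / q < l := by
      rw [Nat.div_lt_iff_lt_mul hq0]
      exact Nat.mul_lt_mul_of_pos_left (ZMod.val_lt _) hl.out.pos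
    exact Nat.le_sub_one_of_lt this
  have hmod : l * (t : ZMod q).val % q ≠ 0 := by
    intro h
    have h2 := Nat.dvd_of_mod_eq_zero h
    rcases hq.out.dvd_mul.1 h2 with h3 | h3
    · exact hlq ((Nat.prime_dvd_prime_iff_eq hq.out hl.out).1 h3).symm
    · have h4 := Nat.le_of_dvd (val_unit_pos t) h3
      have h5 := ZMod.val_lt (t : ZMod q)
      omega
  have h3 : l * (-(t : ZMod q)).val + l * (t : ZMod q).val = l * q := by
    rw [← mul_add, h1]
  have h4 := Nat.div_add_mod (l * (t : ZMod q).val) q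
  have h5 := Nat.mod_lt (l * (t : ZMod q).val) hq0
  rw [ee, ee, Units.val_neg]
  generalize l * (t : ZMod q).val / q = k at hlt h4 ⊢
  generalize l * (t : ZMod q).val % q = r at hmod h4 h5 ⊢
  have hl1 : l = (l - 1 - k) + k + 1 := by
    have := hl.out.pos
    omega
  have h2 : l * (-(t : ZMod q)).val / q = l - 1 - k := by
    have h6 : l * (-(t : ZMod q)).val = q * (l - 1 - k) + (q - r) := by
      have h7 : l * q = q * (l - 1 - k) + q * k + q := by
        conv_lhs => rw [hl1]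
        ring
      omega
    rw [h6, Nat.mul_add_div hq0, Nat.div_eq_of_lt (by omega), add_zero]
  rw [h2]
  omega

theorem sum_ee (h2 : q ≠ 2) (hlq : l ≠ q) :
    ∑ t : (ZMod q)ˣ, ee q l t = (l - 1) * ((q - 1) / 2) := by
  have h3 : ∑ t : (ZMod q)ˣ, ee q l t = ∑ t : (ZMod q)ˣ, l * (t : ZMod q).val / q := by
    rw [← Equiv.sum_comp (Equiv.neg (ZMod q)ˣ)]
    exact Finset.sum_congr rfl fun t _ => (ee_neg hlq t).1
  have h4 : ∑ t : (ZMod q)ˣ, ee q l t + ∑ t : (ZMod q)ˣ, l * (t : ZMod q).val / q =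
      (q - 1) * (l - 1) := by
    rw [← Finset.sum_add_distrib, Finset.sum_congr rfl fun t _ => (ee_neg hlq t).2,
      Finset.sum_const, Finset.card_univ, ZMod.card_units_eq_totient, Nat.totient_prime hq.out,
      smul_eq_mul]
  rw [← h3] at h4
  obtain ⟨m, hm⟩ := q_odd h2
  have h5 : (q - 1) / 2 = m := by omega
  have h6 : q - 1 = 2 * m := by omega
  rw [h5]
  rw [h6] at h4
  have h7 : 2 * ∑ t : (ZMod q)ˣ, ee q l t = 2 * ((l - 1) * m) := by
    rw [two_mul, h4]; ring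
  omega

theorem int_pow (n : ℤ) (hn : (n : L) ≠ 0) : (n : L) ^ (l - 1) = 1 := by
  have h1 : (n : L) ^ l = n := by
    have := map_intCast (frobenius L l) n
    rwa [frobenius_def] at this
  apply mul_right_cancel₀ hn
  rw [← pow_succ, Nat.sub_add_cancel hl.out.one_le, h1, one_mul]

theorem int_pow_sum (h2 : q ≠ 2) (hlq : l ≠ q) (n : ℤ) (hn : (n : L) ≠ 0) :
    ∏ t : (ZMod q)ˣ, (n : L) ^ ee q l t = 1 := by
  rw [Finset.prod_pow_eq_pow_sum, sum_ee h2 hlq, pow_mul, int_pow n hn, one_pow]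

/-- the exponents of the root of unity -/
theorem sum_inv_ee (h2 : q ≠ 2) :
    ∑ t : (ZMod q)ˣ, ((t⁻¹ : (ZMod q)ˣ) : ZMod q) * (ee q l t : ZMod q) = -lerch q l := by
  have h4 : ∀ t : (ZMod q)ˣ, ((t⁻¹ : (ZMod q)ˣ) : ZMod q) * (ee q l t : ZMod q) =
      ((l : ZMod q) - 1) * ((t⁻¹ : (ZMod q)ˣ) : ZMod q) -
        ((t⁻¹ : (ZMod q)ˣ) : ZMod q) * ((l * (t : ZMod q).val / q : ℕ) : ZMod q) := by
    intro t
    have h5 : l * (t : ZMod q).val / q ≤ l - 1 := by
      have : l * (t : ZMod q).val / q < l := by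
        rw [Nat.div_lt_iff_lt_mul hq.out.pos]
        exact Nat.mul_lt_mul_of_pos_left (ZMod.val_lt _) hl.out.pos
      omega
    rw [ee, Nat.cast_sub h5, Nat.cast_sub hl.out.one_le, Nat.cast_one]
    ring
  simp_rw [h4]
  rw [Finset.sum_sub_distrib, ← Finset.mul_sum, sum_units_zero h2, mul_zero, zero_sub, lerch]

theorem E_inj {z : L} (hz : IsPrimitiveRoot z q) {a b : ZMod q} (h : E z a = E z b) : a = b := by
  have h1 := hz.pow_inj (ZMod.val_lt a) (ZMod.val_lt b) h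
  exact ZMod.val_injective q h1

/-- the product of the `1 - u ζ ^ s`, `u = ± 1`, squared -/
theorem prod_sq (h2 : q ≠ 2) (hlq : l ≠ q) {z : L} (hz : IsPrimitiveRoot z q) {u : ℤ}
    (hu : u = 1 ∨ u = -1) :
    (∏ t : (ZMod q)ˣ, (1 - (u : L) * E z ((t⁻¹ : (ZMod q)ˣ) : ZMod q)) ^ ee q l t) ^ 2 =
      E z (-lerch q l) := by
  have hu2 : (u : L) * u = 1 := by rcases hu with h | h <;> rw [h] <;> norm_num
  have hu0 : (u : L) ≠ 0 := by
    intro h
    rw [h, zero_mul] at hu2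
    exact zero_ne_one hu2
  -- the reflected product
  have h1 : ∏ t : (ZMod q)ˣ, (1 - (u : L) * E z ((t⁻¹ : (ZMod q)ˣ) : ZMod q)) ^ ee q l t =
      ∏ t : (ZMod q)ˣ, (-(u : L) * E z (-((t⁻¹ : (ZMod q)ˣ) : ZMod q)) *
        (1 - (u : L) * E z ((t⁻¹ : (ZMod q)ˣ) : ZMod q))) ^ (l * (t : ZMod q).val / q) := by
    rw [← Equiv.prod_comp (Equiv.neg (ZMod q)ˣ)]
    apply Finset.prod_congr rfl
    intro t _
    rw [Equiv.neg_apply, (ee_neg hlq t).1]
    congr 1
    have h3 : (((-t)⁻¹ : (ZMod q)ˣ) : ZMod q) = -((t⁻¹ : (ZMod q)ˣ) : ZMod q) := by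
      rw [inv_neg, Units.val_neg]
    rw [h3]
    have h4 := E_neg hz.pow_eq_one ((t⁻¹ : (ZMod q)ˣ) : ZMod q)
    linear_combination (-(u : L) * u) * h4 - hu2
  have h3 : (∏ t : (ZMod q)ˣ, (1 - (u : L) * E z ((t⁻¹ : (ZMod q)ˣ) : ZMod q)) ^ ee q l t) ^ 2 =
      (∏ t : (ZMod q)ˣ, (-(u : L)) ^ (l * (t : ZMod q).val / q)) *
      (∏ t : (ZMod q)ˣ, E z (-((t⁻¹ : (ZMod q)ˣ) : ZMod q)) ^ (l * (t : ZMod q).val / q)) *
      (∏ t : (ZMod q)ˣ, (1 - (u : L) * E z ((t⁻¹ : (ZMod q)ˣ) : ZMod q))) ^ (l - 1) := by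
    rw [pow_two]
    nth_rewrite 2 [h1]
    rw [← Finset.prod_pow, ← Finset.prod_mul_distrib, ← Finset.prod_mul_distrib,
      ← Finset.prod_mul_distrib]
    apply Finset.prod_congr rfl
    intro t _
    conv_rhs => rw [← (ee_neg hlq t).2, pow_add]
    rw [mul_pow, mul_pow]
    ring
  -- the sign
  have h4 : ∏ t : (ZMod q)ˣ, (-(u : L)) ^ (l * (t : ZMod q).val / q) = 1 := by
    have h5 := int_pow_sum (L := L) h2 hlq (-u) (by
      rw [Int.cast_neg, Ne, neg_eq_zero]; exact hu0)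
    rw [← Equiv.prod_comp (Equiv.neg (ZMod q)ˣ)] at h5
    rw [← h5]
    apply Finset.prod_congr rfl
    intro t _
    rw [Equiv.neg_apply, (ee_neg hlq t).1, Int.cast_neg]
  -- the root of unity
  have h5 : ∏ t : (ZMod q)ˣ, E z (-((t⁻¹ : (ZMod q)ˣ) : ZMod q)) ^ (l * (t : ZMod q).val / q) =
      E z (-lerch q l) := by
    simp_rw [E_pow_nat hz.pow_eq_one]
    rw [E_sum hz.pow_eq_one]
    congr 1
    rw [lerch, ← Finset.sum_neg_distrib]
    exact Finset.sum_congr rfl fun t _ => by ring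
  -- the norm
  have hlq0 : (l : ZMod q) ≠ 0 := by
    rw [Ne, ZMod.natCast_eq_zero_iff, Nat.prime_dvd_prime_iff_eq hq.out hl.out]
    exact fun h => hlq h.symm
  have h6 : (∏ t : (ZMod q)ˣ, (1 - (u : L) * E z ((t⁻¹ : (ZMod q)ˣ) : ZMod q))) ^ (l - 1) = 1 := by
    have hne : ∏ t : (ZMod q)ˣ, (1 - (u : L) * E z ((t⁻¹ : (ZMod q)ˣ) : ZMod q)) ≠ 0 := by
      rw [Finset.prod_ne_zero_iff]
      intro t _ h
      have h7 : E z (2 * ((t⁻¹ : (ZMod q)ˣ) : ZMod q)) = E z (0 : ZMod q) := by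
        rw [two_mul, E_add hz.pow_eq_one, E_zero]
        have h8 : (u : L) * E z ((t⁻¹ : (ZMod q)ˣ) : ZMod q) = 1 := by linear_combination -h
        linear_combination (1 + (u : L) * E z ((t⁻¹ : (ZMod q)ˣ) : ZMod q)) * h8 -
          (E z ((t⁻¹ : (ZMod q)ˣ) : ZMod q)) ^ 2 * hu2
      have h9 := E_inj hz h7
      rcases mul_eq_zero.1 h9 with h10 | h10
      · have h11 : ((2 : ℕ) : ZMod q) = 0 := by exact_mod_cast h10
        rw [ZMod.natCast_eq_zero_iff] at h11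
        have := Nat.le_of_dvd (by norm_num) h11
        have := three_le h2
        omega
      · exact unit_ne _ h10
    apply mul_right_cancel₀ hne
    rw [← pow_succ, Nat.sub_add_cancel hl.out.one_le, one_mul, ← Finset.prod_pow]
    obtain ⟨ul, hul⟩ : ∃ v : (ZMod q)ˣ, (v : ZMod q) = l := ⟨Units.mk0 (l : ZMod q) hlq0, rfl⟩
    rw [← Equiv.prod_comp (Equiv.mulRight ul)]
    apply Finset.prod_congr rfl
    intro t _
    rw [Equiv.coe_mulRight]
    have h7 : (1 - (u : L) * E z (((t * ul)⁻¹ : (ZMod q)ˣ) : ZMod q)) ^ l =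
        1 - (u : L) ^ l * E z (((t * ul)⁻¹ : (ZMod q)ˣ) : ZMod q) ^ l := by
      have := map_sub (frobenius L l) 1 ((u : L) * E z (((t * ul)⁻¹ : (ZMod q)ˣ) : ZMod q))
      rw [map_mul, map_one] at this
      simpa only [frobenius_def] using this
    have h8 : (u : L) ^ l = u := by
      have := map_intCast (frobenius L l) u
      rwa [frobenius_def] at this
    rw [h7, h8, E_pow_nat hz.pow_eq_one]
    congr 3
    rw [← hul, mul_inv, Units.val_mul, mul_assoc, ← Units.val_mul, inv_mul_cancel, Units.val_one,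
      mul_one]
  rw [h3, h4, h5, h6, one_mul, mul_one]

end

end Pool.Agent.H539.PR
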