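import Pool.Agent.H539.PR3

/-!
# Closed forms of the index
-/

namespace Pool.Agent.H539.PR

open NumberField Finset Polynomial Pool.Agent.H140.FJ Pool.Agent.H140.JQ

section
variable {q : ℕ} [hq : Fact q.Prime] {p : ℕ} [hpf : Fact p.Prime] {A B : ℤ} (D : Dat q p A B)
variable {l : ℕ} [hl : Fact l.Prime]

theorem exists_field (hlq : l ≠ q) :
    ∃ (L : Type) (_ : Field L) (_ : CharP L l) (z : L), IsPrimitiveRoot z q := by
  have hne : NeZero ((q : ℕ) : ZMod l) := ⟨by
    rw [Ne, ZMod.natCast_eq_zero_iff, Nat.prime_dvd_prime_iff_eq hl.out hq.out]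
    exact hlq⟩
  have hne' : NeZero ((q : ℕ) : CyclotomicField q (ZMod l)) :=
    NeZero.of_injective (algebraMap (ZMod l) (CyclotomicField q (ZMod l))).injective
  refine ⟨CyclotomicField q (ZMod l), inferInstance,
    charP_of_injective_algebraMap (algebraMap (ZMod l) _).injective l,
    IsCyclotomicExtension.zeta q (ZMod l) (CyclotomicField q (ZMod l)), ?_⟩
  exact IsCyclotomicExtension.zeta_spec q (ZMod l) (CyclotomicField q (ZMod l))

include D in
theorem exists_index (hlp : l ≠ p) :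
    ∃ c : ZMod q, (l : ZMod p) ^ ((p - 1) / q) = E (gg p A B) c := by
  have hlp0 : (l : ZMod p) ≠ 0 := by
    rw [Ne, ZMod.natCast_eq_zero_iff, Nat.prime_dvd_prime_iff_eq hpf.out hl.out]
    exact fun h => hlp h.symm
  have h1 : ((l : ZMod p) ^ ((p - 1) / q)) ^ q = 1 := by
    rw [← pow_mul, mul_comm, qM D]
    exact ZMod.pow_card_sub_one_eq_one hlp0
  obtain ⟨i, hi, hi2⟩ := (gg_prim D).eq_pow_of_pow_eq_one h1
  exact ⟨(i : ZMod q), by rw [E_natCast (gg_pow D), hi2]⟩

include D in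
/-- the index is determined by the law in characteristic `l` -/
theorem index_iff (hlq : l ≠ q) (hlp : l ≠ p) {L : Type*} [Field L] [CharP L l] {z : L}
    (hz : IsPrimitiveRoot z q) (c : ZMod q) :
    (l : ZMod p) ^ ((p - 1) / q) = E (gg p A B) c ↔
    (∏ t : (ZMod q)ˣ, ((A : L) - (B : L) * E z ((t⁻¹ : (ZMod q)ˣ) : ZMod q)) ^ ee q l t) *
      E z ((l : ZMod q) * c) = E z (bet q A B * ((l : ZMod q) * fq q l)) := by
  have hlq0 : (l : ZMod q) ≠ 0 := by
    rw [Ne, ZMod.natCast_eq_zero_iff, Nat.prime_dvd_prime_iff_eq hq.out hl.out]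
    exact fun h => hlq h.symm
  have hndvd : ¬ q ∣ l := by rwa [← ZMod.natCast_eq_zero_iff]
  obtain ⟨c0, hc0⟩ := exists_index D hlp (l := l)
  have h1 := index_law D hlq hlp hz c0 hc0
  rw [lerch_eq hndvd] at h1
  constructor
  · intro h
    rw [hc0] at h
    have : c0 = c := by
      have h2 := (gg_prim D).pow_inj (ZMod.val_lt c0) (ZMod.val_lt c) h
      exact ZMod.val_injective q h2
    rw [← this]
    exact h1
  · intro h
    rw [← h1] at h
    have hP : ∏ t : (ZMod q)ˣ, ((A : L) - (B : L) * E z ((t⁻¹ : (ZMod q)ˣ) : ZMod q)) ^ ee q l t ≠ 0 := by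
      intro h0
      change (∏ t : (ZMod q)ˣ, ((A : L) - (B : L) * E z ((t⁻¹ : (ZMod q)ˣ) : ZMod q)) ^ ee q l t) *
        E z ((l : ZMod q) * c0) = _ at h1
      rw [h0, zero_mul] at h1
      exact (E_isUnit hz.pow_eq_one _).ne_zero h1.symm
    have h2 := mul_left_cancel₀ hP h
    have h3 := E_inj hz h2
    rw [hc0, mul_left_cancel₀ hlq0 h3]

include D in
theorem closed_aux (hlq : l ≠ q) (hlp : l ≠ p) {κ : ZMod q}
    (h : ∀ {L : Type} [Field L] [CharP L l] {z : L}, IsPrimitiveRoot z q →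
      (∏ t : (ZMod q)ˣ, ((A : L) - (B : L) * E z ((t⁻¹ : (ZMod q)ˣ) : ZMod q)) ^ ee q l t) ^ 2 =
        E z (2 * (κ * ((l : ZMod q) * fq q l)))) :
    (l : ZMod p) ^ ((p - 1) / q) = E (gg p A B) ((bet q A B - κ) * fq q l) := by
  obtain ⟨L, i1, i2, z, hz⟩ := exists_field (q := q) (l := l) hlq
  have hlq0 : (l : ZMod q) ≠ 0 := by
    rw [Ne, ZMod.natCast_eq_zero_iff, Nat.prime_dvd_prime_iff_eq hq.out hl.out]
    exact fun h => hlq h.symm
  have h20 : (2 : ZMod q) ≠ 0 := by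
    intro h
    have h11 : ((2 : ℕ) : ZMod q) = 0 := by exact_mod_cast h
    rw [ZMod.natCast_eq_zero_iff] at h11
    have := Nat.le_of_dvd (by norm_num) h11
    have := three_le D.h2
    omega
  obtain ⟨c, hc⟩ := exists_index D hlp (l := l)
  have h1 := (index_iff D hlq hlp hz c).1 hc
  have h2 := h hz
  have h3 : E z (2 * (κ * ((l : ZMod q) * fq q l)) + 2 * ((l : ZMod q) * c)) =
      E z (2 * (bet q A B * ((l : ZMod q) * fq q l))) := by
    rw [E_add hz.pow_eq_one, ← h2, two_mul ((l : ZMod q) * c), E_add hz.pow_eq_one,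
      two_mul (bet q A B * ((l : ZMod q) * fq q l)), E_add hz.pow_eq_one, ← h1]
    ring
  have h4 := E_inj hz h3
  have h5 : c = (bet q A B - κ) * fq q l := by
    apply mul_left_cancel₀ (mul_ne_zero h20 hlq0)
    linear_combination h4
  rw [hc, h5]

omit hl in
theorem cast_ne {L : Type*} [Field L] [CharP L l] {n : ℤ} (h : ¬ (l : ℤ) ∣ n) : (n : L) ≠ 0 := by
  rwa [Ne, CharP.intCast_eq_zero_iff L l]

include D in
/-- `l ∣ A` -/
theorem closed_A (hlq : l ≠ q) (hlp : l ≠ p) (h : (l : ℤ) ∣ A) :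
    (l : ZMod p) ^ ((p - 1) / q) = E (gg p A B) ((bet q A B + 1) * fq q l) := by
  have hndvd : ¬ q ∣ l := by
    rw [Nat.prime_dvd_prime_iff_eq hq.out hl.out]
    exact fun h => hlq h.symm
  have hB : ¬ (l : ℤ) ∣ B := by
    intro hB
    exact (Nat.prime_iff_prime_int.mp hl.out).not_isUnit (D.hc.isUnit_of_dvd' h hB)
  have key := closed_aux D hlq hlp (κ := -1) (l := l) ?_
  · rw [key]
    congr 1
    ring
  · intro L _ _ z hz
    have hA0 : (A : L) = 0 := by rwa [CharP.intCast_eq_zero_iff L l]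
    have hB0 : ((-B : ℤ) : L) ≠ 0 := by
      rw [Int.cast_neg, Ne, neg_eq_zero]
      exact cast_ne hB
    have h1 : ∏ t : (ZMod q)ˣ,
        ((A : L) - (B : L) * E z ((t⁻¹ : (ZMod q)ˣ) : ZMod q)) ^ ee q l t =
        E z (-lerch q l) := by
      have h2 : ∀ t : (ZMod q)ˣ,
          ((A : L) - (B : L) * E z ((t⁻¹ : (ZMod q)ˣ) : ZMod q)) ^ ee q l t =
          ((-B : ℤ) : L) ^ ee q l t * E z (((t⁻¹ : (ZMod q)ˣ) : ZMod q) * (ee q l t : ZMod q)) := by
        intro t
        rw [← E_pow_nat hz.pow_eq_one, ← mul_pow, hA0, Int.cast_neg]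
        congr 1
        ring
      simp_rw [h2]
      rw [Finset.prod_mul_distrib, int_pow_sum D.h2 hlq _ hB0, one_mul, E_sum hz.pow_eq_one,
        sum_inv_ee D.h2]
    rw [h1, pow_two, ← E_add hz.pow_eq_one, lerch_eq hndvd]
    congr 1
    ring

include D in
/-- `l ∣ B` -/
theorem closed_B (hlq : l ≠ q) (hlp : l ≠ p) (h : (l : ℤ) ∣ B) :
    (l : ZMod p) ^ ((p - 1) / q) = E (gg p A B) (bet q A B * fq q l) := by
  have hA : ¬ (l : ℤ) ∣ A := by
    intro hA
    exact (Nat.prime_iff_prime_int.mp hl.out).not_isUnit (D.hc.isUnit_of_dvd' hA h)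
  have key := closed_aux D hlq hlp (κ := 0) (l := l) ?_
  · rw [key, sub_zero]
  · intro L _ _ z hz
    have hB0 : (B : L) = 0 := by rwa [CharP.intCast_eq_zero_iff L l]
    have h1 : ∏ t : (ZMod q)ˣ,
        ((A : L) - (B : L) * E z ((t⁻¹ : (ZMod q)ˣ) : ZMod q)) ^ ee q l t = 1 := by
      rw [← int_pow_sum (L := L) D.h2 hlq A (cast_ne hA)]
      apply Finset.prod_congr rfl
      intro t _
      rw [hB0, zero_mul, sub_zero]
    rw [h1, one_pow, zero_mul, mul_zero, E_zero]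

include D in
/-- `l ∣ A - u B`, `u = ± 1` -/
theorem closed_pm (hlq : l ≠ q) (hlp : l ≠ p) {u : ℤ} (hu : u = 1 ∨ u = -1)
    (h : (l : ℤ) ∣ A - u * B) :
    (l : ZMod p) ^ ((p - 1) / q) = E (gg p A B) ((bet q A B + 2⁻¹) * fq q l) := by
  have hndvd : ¬ q ∣ l := by
    rw [Nat.prime_dvd_prime_iff_eq hq.out hl.out]
    exact fun h => hlq h.symm
  have h20 : (2 : ZMod q) ≠ 0 := by
    intro h
    have h11 : ((2 : ℕ) : ZMod q) = 0 := by exact_mod_cast h
    rw [ZMod.natCast_eq_zero_iff] at h11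
    have := Nat.le_of_dvd (by norm_num) h11
    have := three_le D.h2
    omega
  have hA : ¬ (l : ℤ) ∣ A := by
    intro hA
    have h3 : (l : ℤ) ∣ u * B := by
      have := dvd_sub hA h
      rwa [sub_sub_cancel] at this
    have h4 : (l : ℤ) ∣ B := by
      rcases hu with h | h
      · rwa [h, one_mul] at h3
      · rwa [h, neg_one_mul, dvd_neg] at h3
    exact (Nat.prime_iff_prime_int.mp hl.out).not_isUnit (D.hc.isUnit_of_dvd' hA h4)
  have key := closed_aux D hlq hlp (κ := -2⁻¹) (l := l) ?_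
  · rw [key, sub_neg_eq_add]
  · intro L _ _ z hz
    have hAB : (A : L) = u * B := by
      have h3 : ((A - u * B : ℤ) : L) = 0 := by rwa [CharP.intCast_eq_zero_iff L l]
      push_cast at h3
      linear_combination h3
    have hu2 : (u : L) * u = 1 := by rcases hu with h | h <;> rw [h] <;> norm_num
    have hBA : (B : L) = A * u := by rw [hAB]; linear_combination (-(B : L)) * hu2
    have h1 : ∏ t : (ZMod q)ˣ,
        ((A : L) - (B : L) * E z ((t⁻¹ : (ZMod q)ˣ) : ZMod q)) ^ ee q l t =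
        ∏ t : (ZMod q)ˣ, (1 - (u : L) * E z ((t⁻¹ : (ZMod q)ˣ) : ZMod q)) ^ ee q l t := by
      have h5 : ∏ t : (ZMod q)ˣ,
          ((A : L) - (B : L) * E z ((t⁻¹ : (ZMod q)ˣ) : ZMod q)) ^ ee q l t =
          (∏ t : (ZMod q)ˣ, (A : L) ^ ee q l t) *
          ∏ t : (ZMod q)ˣ, (1 - (u : L) * E z ((t⁻¹ : (ZMod q)ˣ) : ZMod q)) ^ ee q l t := by
        rw [← Finset.prod_mul_distrib]
        apply Finset.prod_congr rfl
        intro t _
        rw [← mul_pow, hBA]
        congr 1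
        ring
      rw [h5, int_pow_sum (L := L) D.h2 hlq A (cast_ne hA), one_mul]
    rw [h1, prod_sq D.h2 hlq hz hu, lerch_eq hndvd]
    congr 1
    have h3 : (2 : ZMod q) * 2⁻¹ = 1 := mul_inv_cancel₀ h20
    linear_combination (l : ZMod q) * fq q l * h3

end

end Pool.Agent.H539.PR
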