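import Pool.Agent.H666.TK.SpecB

/-!
# TK B5: tuples such that `c` and two of `a, b, x` are critical
(project TK of helper666, written by helper539)
-/

set_option autoImplicit false
set_option linter.unusedSectionVars false

open Finset
open scoped Classical

namespace Pool.Agent.H539.TKq

open Pool.Agent.H666.TK

/-- A set which is parametrised by pairs has at most `B ^ 2` elements. -/
theorem fib2 {V γ : Type} (S : Finset γ) (X : Finset V) (Z : V → Finset V) (g : γ → V × V)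
    (hg : ∀ p ∈ S, ∀ q ∈ S, g p = g q → p = q) (B : ℕ)
    (h : ∀ p ∈ S, (g p).1 ∈ X ∧ (g p).2 ∈ Z (g p).1)
    (hB : S.Nonempty → X.card ≤ B ∧ ∀ x ∈ X, (Z x).card ≤ B) : S.card ≤ B ^ 2 := by
  rcases S.eq_empty_or_nonempty with h0 | h0
  · rw [h0, card_empty]
    exact Nat.zero_le _
  · obtain ⟨hX, hZ⟩ := hB h0
    have h1 : S.image g ⊆ X.biUnion fun x => (Z x).image fun z => (x, z) := by
      intro q hq
      obtain ⟨p, hp, rfl⟩ := mem_image.1 hq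
      obtain ⟨h2, h3⟩ := h p hp
      exact mem_biUnion.2 ⟨(g p).1, h2, mem_image.2 ⟨(g p).2, h3, rfl⟩⟩
    calc S.card = (S.image g).card :=
          (card_image_of_injOn fun p hp q hq hpq => hg p hp q hq hpq).symm
      _ ≤ (X.biUnion fun x => (Z x).image fun z => (x, z)).card := card_le_card h1
      _ ≤ ∑ x ∈ X, ((Z x).image fun z => (x, z)).card := card_biUnion_le
      _ ≤ ∑ x ∈ X, B := sum_le_sum fun x hx => card_image_le.trans (hZ x hx)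
      _ = X.card * B := by rw [sum_const, smul_eq_mul]
      _ ≤ B * B := Nat.mul_le_mul_right B hX
      _ = B ^ 2 := (sq B).symm

section

variable {V : Type} [Fintype V] [DecidableEq V] {H : Finset (Finset V)} {B k : ℕ}

theorem mem_QQ {p : Finset V × V × V × V × V × V} : p ∈ QQ H B k ↔ p.1 ∈ Cs H k ∧
    Lt H B p.1 p.2.1 p.2.2.1 p.2.2.2.1 ∧ Lt H B p.1 p.2.2.2.2.1 p.2.2.2.2.2 p.2.2.2.1 := by
  unfold QQ
  rw [mem_filter]
  exact ⟨fun h => h.2, fun h => ⟨mem_univ _, h⟩⟩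

theorem mem_TT {p : Finset V × V × V × V} : p ∈ TT H k ↔ p.1 ∈ Cs H k ∧
    Tr H p.1 p.2.1 p.2.2.1 p.2.2.2 := by
  unfold TT
  rw [mem_filter]
  exact ⟨fun h => h.2, fun h => ⟨mem_univ _, h⟩⟩

theorem mem_f {R : Finset V} {a b x : V} :
    x ∈ ((univ : Finset V).filter fun x => Tr H R a b x) ↔ Tr H R a b x := by
  rw [mem_filter]
  exact ⟨fun h => h.2, fun h => ⟨mem_univ _, h⟩⟩

theorem q5 : ((QQ H B k).filter fun p => Tr H p.1 p.2.2.2.2.1 p.2.1 p.2.2.1).card ≤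
      B ^ 2 * (TT H k).card := by
  refine card_le_mul_card_image_of_maps_to (f := fun p : Finset V × V × V × V × V × V =>
    (p.1, p.2.2.2.2.1, p.2.1, p.2.2.1)) ?_ _ ?_
  · intro p hp
    rw [mem_filter, mem_QQ] at hp
    exact mem_TT.2 ⟨hp.1.1, hp.2⟩
  · rintro ⟨R, c, a, b⟩ -
    refine fib2 _ (((univ : Finset V).filter fun x => Tr H R a b x).filter
      fun x => cd H R c x < B) (fun x => (univ : Finset V).filter fun z => Tr H R c x z)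
      (fun p => (p.2.2.2.1, p.2.2.2.2.2)) ?_ B ?_ ?_
    · rintro ⟨R1, a1, b1, x1, c1, z1⟩ h1 ⟨R2, a2, b2, x2, c2, z2⟩ h2 h3
      rw [mem_filter] at h1 h2
      have e1 := h1.2
      have e2 := h2.2
      simp only [Prod.mk.injEq] at e1 e2 h3 ⊢
      obtain ⟨rfl, rfl, rfl, rfl⟩ := e1
      obtain ⟨rfl, rfl, rfl, rfl⟩ := e2
      exact ⟨rfl, rfl, rfl, h3.1, rfl, h3.2⟩
    · rintro ⟨R1, a1, b1, x1, c1, z1⟩ h1
      rw [mem_filter, mem_filter, mem_QQ] at h1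
      obtain ⟨⟨⟨h2, h3, h4⟩, h5⟩, e1⟩ := h1
      simp only [Prod.mk.injEq] at e1 h3 h4 h5 ⊢
      obtain ⟨rfl, rfl, rfl, rfl⟩ := e1
      exact ⟨mem_filter.2 ⟨mem_f.2 h3.1, h4.2.2.1⟩, mem_f.2 (Tr_swap23 h4.1)⟩
    · rintro ⟨⟨R1, a1, b1, x1, c1, z1⟩, h1⟩
      rw [mem_filter, mem_filter, mem_QQ] at h1
      obtain ⟨⟨⟨h2, h3, h4⟩, h5⟩, e1⟩ := h1
      simp only [Prod.mk.injEq] at e1 h3 h4 h5
      obtain ⟨rfl, rfl, rfl, rfl⟩ := e1
      refine ⟨(card_le_card (filter_subset _ _)).trans h3.2.1.le, fun x hx => ?_⟩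
      exact (mem_filter.1 hx).2.le

theorem q6 : ((QQ H B k).filter fun p => Tr H p.1 p.2.2.2.2.1 p.2.1 p.2.2.2.1).card ≤
      B ^ 2 * (TT H k).card := by
  refine card_le_mul_card_image_of_maps_to (f := fun p : Finset V × V × V × V × V × V =>
    (p.1, p.2.2.2.2.1, p.2.1, p.2.2.2.1)) ?_ _ ?_
  · intro p hp
    rw [mem_filter, mem_QQ] at hp
    exact mem_TT.2 ⟨hp.1.1, hp.2⟩
  · rintro ⟨R, c, a, x⟩ -
    refine fib2 _ ((univ : Finset V).filter fun b => Tr H R a x b)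
      (fun _ => (univ : Finset V).filter fun z => Tr H R c x z)
      (fun p => (p.2.2.1, p.2.2.2.2.2)) ?_ B ?_ ?_
    · rintro ⟨R1, a1, b1, x1, c1, z1⟩ h1 ⟨R2, a2, b2, x2, c2, z2⟩ h2 h3
      rw [mem_filter] at h1 h2
      have e1 := h1.2
      have e2 := h2.2
      simp only [Prod.mk.injEq] at e1 e2 h3 ⊢
      obtain ⟨rfl, rfl, rfl, rfl⟩ := e1
      obtain ⟨rfl, rfl, rfl, rfl⟩ := e2
      exact ⟨rfl, rfl, h3.1, rfl, rfl, h3.2⟩
    · rintro ⟨R1, a1, b1, x1, c1, z1⟩ h1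
      rw [mem_filter, mem_filter, mem_QQ] at h1
      obtain ⟨⟨⟨h2, h3, h4⟩, h5⟩, e1⟩ := h1
      simp only [Prod.mk.injEq] at e1 h3 h4 h5 ⊢
      obtain ⟨rfl, rfl, rfl, rfl⟩ := e1
      exact ⟨mem_f.2 (Tr_swap23 h3.1), mem_f.2 (Tr_swap23 h4.1)⟩
    · rintro ⟨⟨R1, a1, b1, x1, c1, z1⟩, h1⟩
      rw [mem_filter, mem_filter, mem_QQ] at h1
      obtain ⟨⟨⟨h2, h3, h4⟩, h5⟩, e1⟩ := h1
      simp only [Prod.mk.injEq] at e1 h3 h4 h5
      obtain ⟨rfl, rfl, rfl, rfl⟩ := e1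
      exact ⟨h3.2.2.1.le, fun _ _ => h4.2.2.1.le⟩

theorem q7 : ((QQ H B k).filter fun p => Tr H p.1 p.2.2.2.2.1 p.2.2.1 p.2.2.2.1).card ≤
      B ^ 2 * (TT H k).card := by
  refine card_le_mul_card_image_of_maps_to (f := fun p : Finset V × V × V × V × V × V =>
    (p.1, p.2.2.2.2.1, p.2.2.1, p.2.2.2.1)) ?_ _ ?_
  · intro p hp
    rw [mem_filter, mem_QQ] at hp
    exact mem_TT.2 ⟨hp.1.1, hp.2⟩
  · rintro ⟨R, c, b, x⟩ -
    refine fib2 _ ((univ : Finset V).filter fun a => Tr H R b x a)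
      (fun _ => (univ : Finset V).filter fun z => Tr H R c x z)
      (fun p => (p.2.1, p.2.2.2.2.2)) ?_ B ?_ ?_
    · rintro ⟨R1, a1, b1, x1, c1, z1⟩ h1 ⟨R2, a2, b2, x2, c2, z2⟩ h2 h3
      rw [mem_filter] at h1 h2
      have e1 := h1.2
      have e2 := h2.2
      simp only [Prod.mk.injEq] at e1 e2 h3 ⊢
      obtain ⟨rfl, rfl, rfl, rfl⟩ := e1
      obtain ⟨rfl, rfl, rfl, rfl⟩ := e2
      exact ⟨rfl, h3.1, rfl, rfl, rfl, h3.2⟩
    · rintro ⟨R1, a1, b1, x1, c1, z1⟩ h1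
      rw [mem_filter, mem_filter, mem_QQ] at h1
      obtain ⟨⟨⟨h2, h3, h4⟩, h5⟩, e1⟩ := h1
      simp only [Prod.mk.injEq] at e1 h3 h4 h5 ⊢
      obtain ⟨rfl, rfl, rfl, rfl⟩ := e1
      exact ⟨mem_f.2 (Tr_swap23 (Tr_swap12 h3.1)), mem_f.2 (Tr_swap23 h4.1)⟩
    · rintro ⟨⟨R1, a1, b1, x1, c1, z1⟩, h1⟩
      rw [mem_filter, mem_filter, mem_QQ] at h1
      obtain ⟨⟨⟨h2, h3, h4⟩, h5⟩, e1⟩ := h1
      simp only [Prod.mk.injEq] at e1 h3 h4 h5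
      obtain ⟨rfl, rfl, rfl, rfl⟩ := e1
      exact ⟨h3.2.2.2.le, fun _ _ => h4.2.2.1.le⟩

end

/-- **TK B5.** -/
theorem t_q567 : Pool.Agent.H666.TK.S_q567 := by
  intro V _ _ H B k
  exact ⟨q5, q6, q7⟩

end Pool.Agent.H539.TKq
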